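import Pool.Agent.H55.PC.Level

/-!
# The rate of the frame level in a good cell

In an affine cell of the mesh the number of digits grows by at most `V X` on `X` windows.
-/

set_option autoImplicit false

namespace Pool.PC

open Finset Real
open Pool.UEG

variable {x₀ x₁ γ C cR v₀ κ e₁ vm Cq d e τ h : ℝ} {J X : ℕ}

/-- **The rate in one cell.** -/
theorem LevK.rate (K : LevK x₀ x₁ γ C cR v₀ κ e₁ vm Cq d e τ h J X) (hx₀ : 0 < x₀)
    (hx₀1 : x₀ ≤ 1) (hx₁ : 0 < x₁) (hγ : 0 < γ) {r : ℝ → ℝ}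
    (hr : Monotone r) {a : ℝ} (ha : 0 ≤ a) {N i : ℕ} (hde : d = N * e) {v : ℝ}
    (hvm : v ≤ vm) (hA : Msh.Aff r (a + i * d) d v (e₁ * d)) {V : ℕ} (hV : vm + 2 ≤ V)
    {w : ℕ} (h0 : mwi a e J (i * N) ≤ w) (h1 : w + X ≤ mwi a e J ((i + 1) * N)) :
    mvp r a e τ J (w + X) ≤ mvp r a e τ J w + V * X := by
  have hJ0 := mJ_pos K.ep K.J1
  have hxm : 0 < min x₀ x₁ := lt_min hx₀ hx₁
  have hm0 : min x₀ x₁ ≤ x₀ := min_le_left _ _
  obtain ⟨xm, hxmE⟩ : ∃ xm, xm = min x₀ x₁ := ⟨_, rfl⟩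
  have hκ : 0 < κ := by rw [K.κ1]; have := K.v0; positivity
  obtain ⟨i₀, hi₀⟩ : ∃ i₀, i₀ = i * N := ⟨_, rfl⟩
  obtain ⟨i₁, hi₁⟩ : ∃ i₁, i₁ = (i + 1) * N := ⟨_, rfl⟩
  have h01 : i₀ ≤ i₁ := by rw [hi₀, hi₁]; exact Nat.mul_le_mul_right _ (Nat.le_succ i)
  have hsub : i₁ - i₀ = N := by rw [hi₀, hi₁, Nat.add_mul, one_mul, Nat.add_sub_cancel_left]
  have hd : d = ((i₁ - i₀ : ℕ) : ℝ) * e := by rw [hsub]; exact hde
  have hA' : Msh.Aff r (a + i₀ * e) d v (e₁ * d) := by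
    have e1 : a + (i₀ : ℝ) * e = a + i * d := by
      rw [hi₀, hde]
      push_cast
      ring
    rw [e1]
    exact hA
  rw [← hi₀] at h0
  rw [← hi₁] at h1
  obtain ⟨dJ, hdJ⟩ : ∃ dJ, dJ = d * J := ⟨_, rfl⟩
  have hdJ0 : 0 < dJ := by rw [hdJ]; exact mul_pos K.d0 hJ0
  have E1 : xm * (κ * dJ) ≤ 2 * (xm * X) := by
    have h2 := mul_le_mul_of_nonneg_left K.X1 hxm.le
    rw [← hxmE, ← hdJ] at h2
    linarith only [h2]
  have E2 : (2 * e₁ * d) * J ≤ xm * (κ * dJ) / 8 := by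
    have h2 := mul_le_mul_of_nonneg_right K.e2 hdJ0.le
    rw [← hxmE] at h2
    rw [hdJ] at h2 ⊢
    linarith only [h2]
  have E4 : vm * e * J ≤ xm * (κ * dJ) / 16 := by
    have h2 := mul_le_mul_of_nonneg_right K.ed3 hJ0.le
    rw [← hxmE] at h2
    rw [hdJ]
    linarith only [h2]
  have E7 : 64 ≤ xm * (κ * dJ) := by
    have h2 := K.J3
    rw [← hxmE, ← hdJ] at h2
    linarith only [h2]
  have hxX : xm * X ≤ X := by
    have h2 : xm ≤ 1 := (hxmE ▸ hm0).trans hx₀1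
    have h3 := mul_le_mul_of_nonneg_right h2 (Nat.cast_nonneg (α := ℝ) X)
    rwa [one_mul] at h3
  have hst := mwi_strict ha K.ep K.J1 (J := J)
  have g0 : i₀ ≤ mix a e J w := le_mix ha K.ep K.J1 h0
  have g1 : mix a e J (w + X) ≤ i₁ := by
    have := mix_mono (x := a) (J := J) K.ep h1
    rwa [mix_mwi ha K.ep K.J1] at this
  have g2 : mix a e J w ≤ mix a e J (w + X) := mix_mono K.ep (Nat.le_add_right w X)
  have a1 : mwi a e J (mix a e J (w + X)) ≤ w + X := mwi_mix ha K.ep K.J1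
    ((hst.monotone (Nat.zero_le _)).trans (h0.trans (Nat.le_add_right w X)))
  have a2 : w < mwi a e J (mix a e J w + 1) := lt_mwi_mix ha K.ep K.J1
  have a3 : (a + mix a e J (w + X) * e) * J < (mwi a e J (mix a e J (w + X)) : ℝ) + 1 := lt_mwi
  have a4 : (mwi a e J (mix a e J w + 1) : ℝ) ≤ (a + (mix a e J w + 1 : ℕ) * e) * J :=
    mwi_le ha K.ep
  have a1' : (mwi a e J (mix a e J (w + X)) : ℝ) ≤ w + X := by exact_mod_cast a1
  have a2' : (w : ℝ) + 1 ≤ mwi a e J (mix a e J w + 1) := by exact_mod_cast a2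
  obtain ⟨j, hj⟩ : ∃ j, j = mix a e J w := ⟨_, rfl⟩
  obtain ⟨j', hj'⟩ : ∃ j', j' = mix a e J (w + X) := ⟨_, rfl⟩
  have key := abs_le.1 (aff_rise hA' K.ep hd h01 g0 g2 g1)
  have key2 := mdi_sub (J := J) (τ := τ) (x := a) hr K.ep g2
  rw [← hj, ← hj'] at key key2
  rw [← hj] at a4 a2'
  rw [← hj'] at a3 a1'
  have hjj : ((j' - j : ℕ) : ℝ) = j' - j := by
    rw [Nat.cast_sub]
    rw [hj, hj']
    exact g2
  rw [hjj] at key
  push_cast at a4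
  have b1 : ((j' : ℝ) - j) * e * J ≤ X + e * J := by linarith only [a2', a1', a3, a4]
  have hjj0 : 0 ≤ ((j' : ℝ) - j) * e * J := by
    rw [← hjj]
    have := K.ep
    positivity
  have b2 : v * (((j' : ℝ) - j) * e) * J ≤ vm * (X + e * J) := by
    have c1 : v * (((j' : ℝ) - j) * e * J) ≤ vm * (((j' : ℝ) - j) * e * J) :=
      mul_le_mul_of_nonneg_right hvm hjj0
    have c2 : vm * (((j' : ℝ) - j) * e * J) ≤ vm * (X + e * J) :=
      mul_le_mul_of_nonneg_left b1 K.vm0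
    linarith only [c1, c2]
  have b3 : (r (a + j' * e) - r (a + j * e)) * J ≤ (v * (((j' : ℝ) - j) * e) + 2 * e₁ * d) * J :=
    mul_le_mul_of_nonneg_right (by linarith only [key, key.2]) hJ0.le
  have b4 : (mdi r a e τ J j' : ℝ) ≤ mdi r a e τ J j + (vm + 2) * X := by
    linarith only [E1, E2, E4, E7, hxX, key2, b2, b3]
  have b5 : (vm + 2) * X ≤ (V : ℝ) * X := mul_le_mul_of_nonneg_right hV (Nat.cast_nonneg _)
  have b6 : (mdi r a e τ J j' : ℝ) ≤ mdi r a e τ J j + V * X := by linarith only [E1, E2, E4, E7, hxX, key2, b2, b3, b5]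
  have b7 : mdi r a e τ J j' ≤ mdi r a e τ J j + V * X := by exact_mod_cast b6
  unfold mvp
  rw [← hj, ← hj']
  exact b7

/-- **The classification of the cells**, with the rate of the number of digits. `V` depends only on
the portion `ρ` of the bad cells. -/
theorem level_rate {x₀ x₁ γ ρ C cR : ℝ} (hx₀ : 0 < x₀) (hx₀1 : x₀ ≤ 1) (hx₁ : 0 < x₁) (hγ : 0 < γ)
    (hγ1 : γ ≤ 1) (hρ : 0 < ρ) (hC : 1 ≤ C) (hcR : 0 ≤ cR) : ∃ κ Cq : ℝ, 0 < κ ∧ κ ≤ 1 ∧ 0 < Cq ∧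
    ∀ r : ℝ → ℝ, Monotone r → ∀ a b : ℝ, 0 ≤ a → a < b → 0 ≤ r a → r b ≤ 1 →
    ∀ d' : ℝ, 0 < d' → ∃ M : ℕ, 0 < M ∧ (b - a) / M ≤ d' ∧ ∃ Bad : Finset ℕ, Bad ⊆ range M ∧
      (Bad.card : ℝ) * ((b - a) / M) ≤ ρ ∧ ∃ N₀ : ℕ, 0 < N₀ ∧ ∀ N : ℕ, N₀ ≤ N →
      ∀ d e : ℝ, d = (b - a) / M → e = d / N → ∃ τ₀ : ℝ, 0 < τ₀ ∧ ∃ J₀ : ℕ, ∀ J : ℕ, J₀ ≤ J →
        1 ≤ e * J ∧ ∀ τ h : ℝ, 0 ≤ τ → τ ≤ τ₀ → h ≤ τ₀ → ∀ X : ℕ, κ / 2 * (d * J) ≤ X →
          X ≤ κ * (d * J) → ∃ tt : ℕ, ∀ i < M, i ∉ Bad →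
            CellOk r a d e τ h x₀ x₁ γ C cR Cq N J X tt i ∧
            ∀ V : ℕ, 2 / ρ + 3 ≤ V → ∀ w, mwi a e J (i * N) ≤ w → w + X ≤ mwi a e J ((i + 1) * N) →
              mvp r a e τ J (w + X) ≤ mvp r a e τ J w + V * X := by
  classical
  have hxm : 0 < min x₀ x₁ := lt_min hx₀ hx₁
  obtain ⟨v₀, hv₀⟩ : ∃ v₀ : ℝ, v₀ = min (x₀ / (4 * C)) 1 := ⟨_, rfl⟩
  have hC0 : 0 < C := by linarith only [hC]
  have v0 : 0 < v₀ := by rw [hv₀]; exact lt_min (by positivity) one_pos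
  have v1 : v₀ ≤ 1 := by rw [hv₀]; exact min_le_right _ _
  have vC : v₀ * C ≤ x₀ / 4 := by
    have h1 : v₀ ≤ x₀ / (4 * C) := by rw [hv₀]; exact min_le_left _ _
    calc v₀ * C ≤ x₀ / (4 * C) * C := mul_le_mul_of_nonneg_right h1 hC0.le
      _ = x₀ / 4 := by field_simp
  obtain ⟨κ, hκ⟩ : ∃ κ : ℝ, κ = γ * v₀ / 4 := ⟨_, rfl⟩
  have κ0 : 0 < κ := by rw [hκ]; positivity
  obtain ⟨e₁, he₁⟩ : ∃ e₁ : ℝ, e₁ = min (γ * v₀ / 16) (min x₀ x₁ * κ / 16) := ⟨_, rfl⟩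
  have e0 : 0 < e₁ := by rw [he₁]; exact lt_min (by positivity) (by positivity)
  obtain ⟨vm, hvm⟩ : ∃ vm : ℝ, vm = e₁ + 2 * 1 / ρ := ⟨_, rfl⟩
  have vm0 : 0 < vm := by rw [hvm]; positivity
  refine ⟨κ, 3 + vm + e₁ + κ + x₁ * κ + cR * κ, κ0, ?_, by positivity, ?_⟩
  · rw [hκ]
    have : γ * v₀ ≤ 1 * 1 := mul_le_mul hγ1 v1 v0.le zero_le_one
    linarith only [this]
  intro r hr a b ha hab hra hrb d' hd'
  obtain ⟨d₀, hd₀, hmesh⟩ := Msh.mesh_bdd (V := 1) hr hab e0 hρ (by linarith only [hra, hrb])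
  -- the mesh
  have hmin : 0 < min d₀ d' := lt_min hd₀ hd'
  obtain ⟨M, hM⟩ := exists_nat_gt ((b - a) / min d₀ d')
  have hba : 0 < b - a := by linarith only [hab]
  have hM0 : (0 : ℝ) < M := lt_trans (div_pos hba hmin) hM
  have hMn : 0 < M := by exact_mod_cast hM0
  have hdM : (b - a) / M < min d₀ d' := by
    rw [div_lt_iff₀ hM0, mul_comm]
    rwa [div_lt_iff₀ hmin] at hM
  obtain ⟨P, hP⟩ : ∃ P : ℕ → Prop, P = fun i : ℕ => ∃ v, 0 ≤ v ∧ v ≤ vm ∧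
    Msh.Aff r (a + i * ((b - a) / M)) ((b - a) / M) v (e₁ * ((b - a) / M)) := ⟨_, rfl⟩
  refine ⟨M, hMn, (hdM.trans_le (min_le_right _ _)).le, (range M).filter fun i => ¬ P i,
    filter_subset _ _, ?_, ?_⟩
  · refine hmesh ((b - a) / M) (div_pos hba hM0) (hdM.trans_le (min_le_left _ _)) a M le_rfl ?_
      _ (filter_subset _ _) ?_
    · rw [mul_div_cancel₀ _ hM0.ne']
      linarith only
    · intro i hi v hv1 hv2 hA
      refine (mem_filter.1 hi).2 ?_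
      rw [hP]
      refine ⟨v, hv1, ?_, hA⟩
      rw [hvm]
      exact hv2
  obtain ⟨N₀, hN₀⟩ := exists_nat_gt (8 / γ + 16 / (min x₀ x₁ * κ) + 16 * vm / (min x₀ x₁ * κ))
  have q1 : 0 < 8 / γ := by positivity
  have q2 : 0 < 16 / (min x₀ x₁ * κ) := by positivity
  have q3 : 0 < 16 * vm / (min x₀ x₁ * κ) := by positivity
  have hN₀r : (0 : ℝ) < N₀ := by linarith only [hN₀, q1, q2, q3]
  refine ⟨N₀, by exact_mod_cast hN₀r, ?_⟩
  intro N hN d e hd he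
  have d0 : 0 < d := by rw [hd]; exact div_pos hba hM0
  have hNr : (N₀ : ℝ) ≤ N := by exact_mod_cast hN
  have hN0 : (0 : ℝ) < N := by linarith only [hN₀, q1, q2, q3, hNr]
  have ep : 0 < e := by rw [he]; exact div_pos d0 hN0
  have hNe : d = N * e := by rw [he, mul_div_cancel₀ _ hN0.ne']
  have g1 : 8 / γ ≤ N := by linarith only [hN₀, q2, q3, hNr]
  have g2 : 16 / (min x₀ x₁ * κ) ≤ N := by linarith only [hN₀, q1, q3, hNr]
  have g3 : 16 * vm / (min x₀ x₁ * κ) ≤ N := by linarith only [hN₀, q1, q2, hNr]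
  have ed1 : e ≤ γ * d / 8 := by
    rw [div_le_iff₀ hγ] at g1
    have h1 := mul_le_mul_of_nonneg_right g1 ep.le
    rw [hNe]
    linarith only [h1]
  have ed2 : e ≤ min x₀ x₁ * κ * d / 16 := by
    rw [div_le_iff₀ (by positivity)] at g2
    have h1 := mul_le_mul_of_nonneg_right g2 ep.le
    rw [hNe]
    linarith only [h1]
  have ed3 : vm * e ≤ min x₀ x₁ * κ * d / 16 := by
    rw [div_le_iff₀ (by positivity)] at g3
    have h1 := mul_le_mul_of_nonneg_right g3 ep.le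
    rw [hNe]
    linarith only [h1]
  obtain ⟨τ₀, hτ₀⟩ : ∃ τ₀ : ℝ, τ₀ = min (γ * v₀ * d / 8) (min (min x₀ x₁ * κ * d / 32) d) :=
    ⟨_, rfl⟩
  have hτ0 : 0 < τ₀ := by
    rw [hτ₀]
    exact lt_min (by positivity) (lt_min (by positivity) d0)
  obtain ⟨J₀, hJ₀⟩ := exists_nat_gt (1 / e + 8 * (1 + 1 / v₀) / (γ * d) +
    64 / (min x₀ x₁ * κ * d) + 5 / d)
  refine ⟨τ₀, hτ0, J₀, ?_⟩
  intro J hJ
  have hJr : (J₀ : ℝ) ≤ J := by exact_mod_cast hJ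
  have p1 : 0 < 1 / e := by positivity
  have p2 : 0 < 8 * (1 + 1 / v₀) / (γ * d) := by positivity
  have p3 : 0 < 64 / (min x₀ x₁ * κ * d) := by positivity
  have p4 : 0 < 5 / d := by positivity
  have J1 : 1 ≤ e * J := by
    have h1 : 1 / e ≤ J := by linarith only [hJ₀, hJr, p2, p3, p4]
    rw [div_le_iff₀ ep] at h1
    linarith only [h1]
  refine ⟨J1, ?_⟩
  intro τ h hτ hττ hhτ X hX1 hX2
  have t1 : τ₀ ≤ γ * v₀ * d / 8 := by rw [hτ₀]; exact min_le_left _ _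
  have t2 : τ₀ ≤ min x₀ x₁ * κ * d / 32 := by
    rw [hτ₀]; exact (min_le_right _ _).trans (min_le_left _ _)
  have t3 : τ₀ ≤ d := by rw [hτ₀]; exact (min_le_right _ _).trans (min_le_right _ _)
  have hK : LevK x₀ x₁ γ C cR v₀ κ e₁ vm (3 + vm + e₁ + κ + x₁ * κ + cR * κ) d e τ h J X := by
    refine ⟨v0, v1, vC, hκ, e0, ?_, ?_, vm0.le, rfl, d0, ep, ed1, ed2, ed3, hτ, hττ.trans t1,
      hττ.trans t2, hττ.trans t3, hhτ.trans t2, J1, ?_, ?_, ?_, hX1, hX2⟩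
    · rw [he₁]; exact min_le_left _ _
    · rw [he₁]; exact min_le_right _ _
    · have h1 : 8 * (1 + 1 / v₀) / (γ * d) ≤ J := by linarith only [hJ₀, hJr, p1, p3, p4]
      rw [div_le_iff₀ (by positivity)] at h1
      linarith only [h1]
    · have h1 : 64 / (min x₀ x₁ * κ * d) ≤ J := by linarith only [hJ₀, hJr, p1, p2, p4]
      rw [div_le_iff₀ (by positivity)] at h1
      linarith only [h1]
    · have h1 : 5 / d ≤ J := by linarith only [hJ₀, hJr, p1, p2, p3]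
      rw [div_le_iff₀ d0] at h1
      linarith only [h1]
  refine ⟨⌈e * J + (X + 1 + (2 * e₁ * d + τ) * J) / v₀⌉₊, ?_⟩
  intro i hi hB
  have hPi : P i := by
    by_contra hcon
    exact hB (mem_filter.2 ⟨mem_range.2 hi, hcon⟩)
  rw [hP] at hPi
  obtain ⟨v, hv1, hv2, hA⟩ := hPi
  rw [← hd] at hA
  refine ⟨hK.cell hx₀ hx₁ hγ hγ1 hcR hr ha hra hNe hv1 hv2 hA, ?_⟩
  intro V hV w hw0 hw1
  refine hK.rate hx₀ hx₀1 hx₁ hγ hr ha hNe hv2 hA ?_ hw0 hw1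
  have k1 : e₁ ≤ γ * v₀ / 16 := by rw [he₁]; exact min_le_left _ _
  have k2 : γ * v₀ ≤ 1 * 1 := mul_le_mul hγ1 v1 v0.le zero_le_one
  have k3 : 2 * 1 / ρ = 2 / ρ := by rw [mul_one]
  rw [hvm, k3]
  linarith only [e0, hV, k1, k2]

end Pool.PC
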