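import Pool.Agent.H83.UEG.TwoW
import Pool.Agent.H64.PC.Sfull
import Pool.Agent.H17.UEG.Cot

/-!
# Plan C: the full step on a rising cell

`rise_cell`: in a cell of windows where the level of the frame rises, and outside a small set of
pairs `(w, q)`, the step from the window `w` to the window `w + X` is full, if at the window `w`
the times and the slopes of two samples are not near, and if the velocity is active at the contexts
`(w, q + j X)`.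
-/

set_option autoImplicit false

namespace Pool.PC

open Finset Real
open Pool.Agent.H49.Ent Pool.Agent.H32.Dense Pool.STK Pool.KA Pool.KSAT Pool.K2S
open Pool.UEG Pool.OCG

variable {J : ℕ}

/-- The frames do not depend on the digits of the time after `R`. -/
theorem Rc2.cot {F : Fam 2 J} {p : F.Ω → ℝ} {σ : Fin 2 → Fin 2} {wa wb : ℕ} {vp : ℕ → ℕ} {D : ℕ}
    {a : ℕ → F.Ω → ℝ} {al : F.Ω → ℝ} (h : Rc2 F p σ wa wb vp D a al) {R : ℕ} (hR : wb ≤ R) :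
    Rc2 (F.cot R) p σ wa wb vp D a al := by
  refine ⟨h.law, h.inj, h.wJ, h.mono, h.vD, h.near, h.grid, fun w h1 h2 ω ω' hω hω' e => ?_⟩
  refine h.det w h1 h2 ω ω' hω hω' ?_
  rwa [Cot.slam_fun F (h2.trans hR)] at e

/-- The activity does not depend on the digits of the time after `R`. -/
theorem ha2_cot {F : Fam 2 J} {p : F.Ω → ℝ} {σ : Fin 2 → Fin 2} {vp : ℕ → ℕ}
    {a : ℕ → F.Ω → ℝ} {X : ℕ} {ϖ κ₀ ca : ℝ} {w q R : ℕ} (hR : w ≤ R)
    (h : Ha2 F p σ vp a X ϖ κ₀ ca w q) : Ha2 (F.cot R) p σ vp a X ϖ κ₀ ca w q := by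
  intro r X' h1 h2 E hE
  have key := h r X' h1 h2 E hE
  have e1 : (F.cot R).blb w (Pool.UEG.cv2 (vp w) (q + r)) (frm2 (F := F.cot R) σ (a w)) =
      F.blb w (Pool.UEG.cv2 (vp w) (q + r)) (frm2 (F := F) σ (a w)) := Cot.blb_fun F hR _ _
  rw [e1]
  exact key

/-- The hypotheses on the two samples at the window `w`. The time is rounded to `R` digits. -/
structure Wtt (F : Fam 2 J) (vp : ℕ → ℕ) (D R : ℕ) (a : ℕ → F.Ω → ℝ) (al : F.Ω → ℝ) (X k' : ℕ)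
    (x₁ ϖ ε₁ εN : ℝ) (w : ℕ) : Prop where
  tim : ∀ E : F.Ω → Prop, ϖ ≤ Pe F.p E → ∑ i ∈ range X,
    nr (Pool.Agent.H49.Ent.cond F.p E True) (slam (F.cot R) w) ((F.cot R).wt w) k' i ≤ εN * X
  th : ∀ E : F.Ω → Prop, ϖ ≤ Pe F.p E →
    Pool.KAF.Pr (dbl (Pool.Agent.H49.Ent.cond F.p E True) (slam F w))
      {v | |sl2 (vp w) D (a w) al v.2 - sl2 (vp w) D (a w) al v.1| <
        (2 : ℝ) ^ (-(x₁ * X))} ≤ ε₁

theorem Wtt.hw2 {F : Fam 2 J} {vp : ℕ → ℕ} {D R : ℕ} {a : ℕ → F.Ω → ℝ} {al : F.Ω → ℝ} {X k' : ℕ}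
    {x₁ ϖ ε₁ εN : ℝ} {w : ℕ} (hR : w ≤ R) (h : Wtt F vp D R a al X k' x₁ ϖ ε₁ εN w) :
    Hw2 (F.cot R) F.p vp D a al X k' x₁ ϖ ε₁ εN w := by
  refine ⟨h.tim, fun E hE => ?_⟩
  have key := h.th E hE
  have e1 : slam (F.cot R) w = slam F w := Cot.slam_fun F hR
  rw [e1]
  exact key

/-- **The full step on a rising cell.** -/
theorem rise_cell : ∀ (ε ca ρ : ℝ) (V : ℕ), 0 < ε → 0 < ca → 0 < ρ →
    ∃ (x₁ ϖ κ₀ ε₁ εN : ℝ), 0 < x₁ ∧ 0 < ϖ ∧ ϖ ≤ 1 ∧ 0 < κ₀ ∧ 0 < ε₁ ∧ 0 < εN ∧ ∀ k' : ℕ,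
    ∃ (γ : ℝ) (n d₀ : ℕ), 0 < γ ∧ γ ≤ 1 ∧ 1 ≤ n ∧ 1 ≤ d₀ ∧
    ∀ {J : ℕ} (F : Fam 2 J) (σ : Fin 2 → Fin 2) (wa wb : ℕ) (vp : ℕ → ℕ) (D R : ℕ)
      (a : ℕ → F.Ω → ℝ) (al : F.Ω → ℝ) (z : ℕ → F.Ω → Fin 2 → ℝ) (d tt qa qb : ℕ), d₀ ≤ d →
      Rc2 F F.p σ wa wb vp D a al → Sh2 wa wb vp D R tt (n * d) qa qb γ →
      wb ≤ R → R ≤ J → (∀ w, wa ≤ w → w ≤ wb → Zof σ (a w) (z w)) →
      (∀ w, wa ≤ w → w + n * d ≤ wb → vp (w + n * d) ≤ vp w + V * (n * d)) →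
      ∃ B : Finset (ℕ × ℕ), B ⊆ Ico wa wb ×ˢ Ico qa qb ∧
        (B.card : ℝ) ≤ ρ * ((wb - wa : ℕ) * (qb - qa : ℕ)) ∧
        ∀ w q, wa ≤ w → w < wb → qa ≤ q → q < qb → (w, q) ∉ B →
          w + n * d ≤ wb ∧ q + V * (n * d) < qb ∧
          (Wtt F vp D R a al (n * d) k' x₁ ϖ ε₁ εN w →
            (∀ j ≤ V, Ha2 F F.p σ vp a (n * d) ϖ κ₀ ca w (q + j * (n * d))) →
            q + vp (w + n * d) + (w + n * d) ≤ J →
            cVol J (w + n * d) q (vp (w + n * d)) - cVol J w q (vp w) - ε * (n * d : ℕ) ≤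
              cNf F (w + n * d) q (vp (w + n * d)) (σ 0) (z (w + n * d)) -
                cNf F w q (vp w) (σ 0) (z w)) := by
  classical
  intro ε ca ρ V hε hca hρ
  obtain ⟨C, hC0, hful⟩ := full_cN
  have hu0 : 0 < Real.log 2 := Real.log_pos (by norm_num)
  have hV : (0 : ℝ) < V + 1 := by positivity
  obtain ⟨x₁, ϖ, κ₀, ε₁, εN, hx₁, hϖ, hϖ1, hκ₀, hε₁, hεN, hue⟩ :=
    ueg_fullW (ε / (2 * ((V + 1) * Real.log 2))) ca (ρ / 2) V (by positivity) hca (by positivity)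
  refine ⟨x₁, ϖ, κ₀, ε₁, εN, hx₁, hϖ, hϖ1, hκ₀, hε₁, hεN, ?_⟩
  intro k'
  obtain ⟨γ, n, d₀, hγ, hγ1, hn, hd₀, hue⟩ := hue k'
  obtain ⟨N, hN⟩ := exists_nat_ge (2 * (C * (V + 2)) / ε)
  refine ⟨γ, n, d₀ + N, hγ, hγ1, hn, by omega, ?_⟩
  intro J F σ wa wb vp D R a al z d tt qa qb hd hRc hS hwR hRJ hz hrate
  have hTR : Det F.p ((F.cot R).T1 R) (F.cot R).T := by
    intro ω ω' _ _ e
    have e1 : F.T1 R ω = F.T1 R ω' := by
      have h1 := Cot.T1_eq F (le_refl R) ω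
      have h2 := Cot.T1_eq F (le_refl R) ω'
      rw [← h1, ← h2]
      exact e
    show 2 ^ (J - R) * (F.T ω / 2 ^ (J - R)) = 2 ^ (J - R) * (F.T ω' / 2 ^ (J - R))
    exact congrArg (fun x => 2 ^ (J - R) * x) e1
  obtain ⟨B, hB1, hB2⟩ := hue (F.cot R) F.p σ wa wb vp D R a al d tt qa qb (by omega)
    (Rc2.cot hRc hwR) hS hwR hRJ hTR
  have hX1 : 1 ≤ n * d := Nat.mul_pos hn (by omega)
  refine ⟨B.filter (fun x => x ∈ Ico wa wb ×ˢ Ico qa qb), fun x hx => (mem_filter.1 hx).2, ?_, ?_⟩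
  · -- the count
    rcases Nat.eq_zero_or_pos (wb - wa) with h0 | h0
    · have h1 : B.filter (fun x => x ∈ Ico wa wb ×ˢ Ico qa qb) = ∅ := by
        refine filter_eq_empty_iff.2 fun x _ hx => ?_
        have h2 := mem_Ico.1 (mem_product.1 hx).1
        omega
      rw [h1, h0]
      simp
    · have h1 : ((B.filter (fun x => x ∈ Ico wa wb ×ˢ Ico qa qb)).card : ℝ) ≤ B.card := by
        exact_mod_cast card_filter_le _ _
      refine h1.trans (hB1.trans ?_)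
      have h2 : ((wb + 1 - wa : ℕ) : ℝ) ≤ 2 * (wb - wa : ℕ) := by
        have : wb + 1 - wa ≤ 2 * (wb - wa) := by omega
        exact_mod_cast this
      have hQ0 : (0 : ℝ) ≤ (qb - qa : ℕ) := Nat.cast_nonneg _
      have h3 := mul_le_mul_of_nonneg_right h2 hQ0
      have h4 := mul_le_mul_of_nonneg_left h3 (show 0 ≤ ρ / 2 by positivity)
      refine h4.trans (le_of_eq ?_)
      ring
  · intro w q h1 h2 h3 h4 hwq
    have hwB : (w, q) ∉ B := fun h => hwq (mem_filter.2 ⟨h, mem_product.2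
      ⟨mem_Ico.2 ⟨h1, h2⟩, mem_Ico.2 ⟨h3, h4⟩⟩⟩)
    obtain ⟨g1, g2, g3⟩ := hB2 w q h1 h2.le h3 h4 hwB
    refine ⟨g1, g2, fun hT hA hJ => ?_⟩
    have hwRR : w ≤ R := by omega
    have g4 := (g3 (hT.hw2 hwRR)).1
    have hcc : ∀ i ≤ V, Cc2 (F.cot R) F.p σ vp D a al (n * d)
        (ε / (2 * ((V + 1) * Real.log 2))) w (q + i * (n * d)) :=
      fun i hi => g4 i hi (ha2_cot hwRR (hA i hi))
    have key := hful F σ wa wb vp D R a al (n * d) V q w (ε / (2 * ((V + 1) * Real.log 2))) z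
      (by positivity) hRJ (Rc2.cot hRc hwR) h1 g1 hwR (hz w h1 h2.le)
      (hz (w + n * d) (by omega) g1) (hrate w h1 g1) hJ hcc
    obtain ⟨Xr, hXr⟩ : ∃ Xr : ℝ, Xr = (n * d : ℕ) := ⟨_, rfl⟩
    have hXr1 : 2 * (C * (V + 2)) ≤ ε * Xr := by
      have k1 : (N : ℝ) ≤ Xr := by
        rw [hXr]
        have : N ≤ n * d := by
          calc N ≤ d := by omega
            _ = 1 * d := (one_mul d).symm
            _ ≤ n * d := Nat.mul_le_mul_right d hn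
        exact_mod_cast this
      rw [div_le_iff₀ hε] at hN
      nlinarith
    have e1 : (V + 1) * (ε / (2 * ((V + 1) * Real.log 2)) * Xr * Real.log 2) = ε * Xr / 2 := by
      field_simp
    have e2 : (V + 1) * (ε / (2 * ((V + 1) * Real.log 2)) * ((n * d : ℕ) : ℝ) * Real.log 2) =
        ε * Xr / 2 := by rw [← hXr]; exact e1
    rw [← hXr]
    have key' := key
    rw [e2] at key'
    linarith

end Pool.PC
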