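import Pool.Agent.H83.PC.Rate

/-!
# The bad pairs of all cells

Cells `[lo i, lo (i + 1))`, `i < M`, cover the windows. `B i` are the bad pairs of the cell `i`,
`Bad` are the bad cells, `T` are the bad windows. The set `Bd` of all bad pairs is small.
-/

set_option autoImplicit false

namespace Pool.PC

open Finset Real

/-- The cell of a window. -/
theorem cell_of {lo : ℕ → ℕ} {M w : ℕ} (h0 : lo 0 ≤ w) (h1 : w < lo M) :
    ∃ i < M, lo i ≤ w ∧ w < lo (i + 1) := by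
  induction M with
  | zero => omega
  | succ M ih =>
    rcases lt_or_ge w (lo M) with h | h
    · obtain ⟨i, hi, h2, h3⟩ := ih h
      exact ⟨i, by omega, h2, h3⟩
    · exact ⟨M, by omega, h, h1⟩

/-- The lengths of the cells. -/
theorem sum_cells {lo : ℕ → ℕ} (hlo : Monotone lo) (M : ℕ) :
    ∑ i ∈ range M, ((lo (i + 1) - lo i : ℕ) : ℝ) = lo M - lo 0 := by
  induction M with
  | zero => simp
  | succ M ih =>
    rw [sum_range_succ, ih, Nat.cast_sub (hlo (Nat.le_succ M))]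
    ring

/-- **The bad pairs of all cells.** -/
theorem bd_union {J M qa qb : ℕ} {lo : ℕ → ℕ} (hlo : Monotone lo) (hJ : lo M ≤ J)
    (Bad T : Finset ℕ) (B : ℕ → Finset (ℕ × ℕ)) {ρ₁ ρ₂ ρ₃ : ℝ} (hρ₁ : 0 ≤ ρ₁)
    (hB : ∀ i < M, i ∉ Bad →
      ((B i).card : ℝ) ≤ ρ₁ * ((lo (i + 1) - lo i : ℕ) * (qb - qa : ℕ)))
    (hbad : ∑ i ∈ Bad, ((lo (i + 1) - lo i : ℕ) : ℝ) ≤ ρ₂ * J) (hT : (T.card : ℝ) ≤ ρ₃ * J) :
    ∃ Bd : Finset (ℕ × ℕ), (Bd.card : ℝ) ≤ (ρ₁ + ρ₂ + ρ₃) * J * (qb - qa : ℕ) ∧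
      ∀ w q, lo 0 ≤ w → w < lo M → qa ≤ q → q < qb → (w, q) ∉ Bd →
        w ∉ T ∧ ∃ i < M, i ∉ Bad ∧ lo i ≤ w ∧ w < lo (i + 1) ∧ (w, q) ∉ B i := by
  classical
  obtain ⟨Q, hQ⟩ : ∃ Q : ℝ, Q = (qb - qa : ℕ) := ⟨_, rfl⟩
  have hQ0 : 0 ≤ Q := by rw [hQ]; exact Nat.cast_nonneg _
  obtain ⟨G, hG⟩ : ∃ G : Finset ℕ, G = (range M).filter (fun i => i ∉ Bad) := ⟨_, rfl⟩
  refine ⟨(G.biUnion B ∪ Bad.biUnion (fun i => Ico (lo i) (lo (i + 1)) ×ˢ Ico qa qb)) ∪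
    T ×ˢ Ico qa qb, ?_, ?_⟩
  · have c1 : ((G.biUnion B).card : ℝ) ≤ ρ₁ * J * Q := by
      have h1 : ((G.biUnion B).card : ℝ) ≤ ∑ i ∈ G, ((B i).card : ℝ) := by
        exact_mod_cast card_biUnion_le
      have h2 : ∑ i ∈ G, ((B i).card : ℝ) ≤
          ∑ i ∈ G, ρ₁ * (((lo (i + 1) - lo i : ℕ) : ℝ) * Q) := by
        refine sum_le_sum fun i hi => ?_
        rw [hG, mem_filter, mem_range] at hi
        rw [hQ]
        exact hB i hi.1 hi.2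
      have h3 : ∑ i ∈ G, ρ₁ * (((lo (i + 1) - lo i : ℕ) : ℝ) * Q) ≤
          ∑ i ∈ range M, ρ₁ * (((lo (i + 1) - lo i : ℕ) : ℝ) * Q) := by
        refine sum_le_sum_of_subset_of_nonneg (by rw [hG]; exact filter_subset _ _)
          fun i _ _ => ?_
        exact mul_nonneg hρ₁ (mul_nonneg (Nat.cast_nonneg _) hQ0)
      have h4 : ∑ i ∈ range M, ρ₁ * (((lo (i + 1) - lo i : ℕ) : ℝ) * Q) =
          ρ₁ * ((lo M - lo 0) * Q) := by
        rw [← mul_sum, ← sum_mul, sum_cells hlo]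
      have h5 : ((lo M : ℝ) - lo 0) * Q ≤ J * Q := by
        refine mul_le_mul_of_nonneg_right ?_ hQ0
        have h6 : (lo M : ℝ) ≤ J := by exact_mod_cast hJ
        have h7 : (0 : ℝ) ≤ lo 0 := Nat.cast_nonneg _
        linarith
      have h8 := mul_le_mul_of_nonneg_left h5 hρ₁
      rw [h4] at h3
      calc _ ≤ _ := h1
        _ ≤ _ := h2
        _ ≤ _ := h3
        _ ≤ _ := h8
        _ = ρ₁ * J * Q := by ring
    have c2 : ((Bad.biUnion (fun i => Ico (lo i) (lo (i + 1)) ×ˢ Ico qa qb)).card : ℝ) ≤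
        ρ₂ * J * Q := by
      have h1 : ((Bad.biUnion (fun i => Ico (lo i) (lo (i + 1)) ×ˢ Ico qa qb)).card : ℝ) ≤
          ∑ i ∈ Bad, ((Ico (lo i) (lo (i + 1)) ×ˢ Ico qa qb).card : ℝ) := by
        exact_mod_cast card_biUnion_le
      have h2 : ∑ i ∈ Bad, ((Ico (lo i) (lo (i + 1)) ×ˢ Ico qa qb).card : ℝ) =
          (∑ i ∈ Bad, ((lo (i + 1) - lo i : ℕ) : ℝ)) * Q := by
        rw [sum_mul]
        refine sum_congr rfl fun i _ => ?_
        rw [card_product, Nat.card_Ico, Nat.card_Ico, hQ]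
        push_cast
        ring
      rw [h2] at h1
      exact h1.trans (mul_le_mul_of_nonneg_right hbad hQ0)
    have c3 : ((T ×ˢ Ico qa qb).card : ℝ) ≤ ρ₃ * J * Q := by
      rw [card_product, Nat.card_Ico, hQ]
      push_cast
      exact mul_le_mul_of_nonneg_right hT (by positivity)
    have c4 : ((((G.biUnion B ∪ Bad.biUnion (fun i => Ico (lo i) (lo (i + 1)) ×ˢ Ico qa qb)) ∪
        T ×ˢ Ico qa qb).card : ℕ) : ℝ) ≤ ((G.biUnion B).card : ℝ) +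
        (Bad.biUnion (fun i => Ico (lo i) (lo (i + 1)) ×ˢ Ico qa qb)).card +
        (T ×ˢ Ico qa qb).card := by
      have h1 := card_union_le (G.biUnion B ∪ Bad.biUnion
        (fun i => Ico (lo i) (lo (i + 1)) ×ˢ Ico qa qb)) (T ×ˢ Ico qa qb)
      have h2 := card_union_le (G.biUnion B) (Bad.biUnion
        (fun i => Ico (lo i) (lo (i + 1)) ×ˢ Ico qa qb))
      exact_mod_cast h1.trans (Nat.add_le_add_right h2 _)
    rw [← hQ]
    linarith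
  · intro w q h0 h1 h2 h3 hwq
    rw [mem_union, mem_union, not_or, not_or] at hwq
    obtain ⟨⟨k1, k2⟩, k3⟩ := hwq
    refine ⟨fun hT => k3 (mem_product.2 ⟨hT, mem_Ico.2 ⟨h2, h3⟩⟩), ?_⟩
    obtain ⟨i, hi, g1, g2⟩ := cell_of h0 h1
    have hbd : i ∉ Bad := fun hb => k2 (mem_biUnion.2 ⟨i, hb, mem_product.2
      ⟨mem_Ico.2 ⟨g1, g2⟩, mem_Ico.2 ⟨h2, h3⟩⟩⟩)
    refine ⟨i, hi, hbd, g1, g2, fun hb => k1 (mem_biUnion.2 ⟨i, ?_, hb⟩)⟩
    rw [hG, mem_filter, mem_range]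
    exact ⟨hi, hbd⟩

/-- The windows of a cell of the mesh. -/
theorem mwi_sub_le {x e d : ℝ} {J N i : ℕ} (hx : 0 ≤ x) (he : 0 < e) (hde : d = N * e)
    (hJ : 1 ≤ e * J) :
    ((mwi x e J ((i + 1) * N) - mwi x e J (i * N) : ℕ) : ℝ) ≤ d * J + 1 := by
  have hst := mwi_strict hx he hJ
  have h1 : mwi x e J (i * N) ≤ mwi x e J ((i + 1) * N) :=
    hst.monotone (Nat.mul_le_mul_right _ (Nat.le_succ i))
  rw [Nat.cast_sub h1]
  have a1 : (mwi x e J ((i + 1) * N) : ℝ) ≤ (x + ((i + 1) * N : ℕ) * e) * J := mwi_le hx he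
  have a2 : (x + (i * N : ℕ) * e) * J < (mwi x e J (i * N) : ℝ) + 1 := lt_mwi
  have e1 : (x + ((i + 1) * N : ℕ) * e) * J = (x + (i * N : ℕ) * e) * J + d * J := by
    rw [hde]
    push_cast
    ring
  linarith

/-- The windows of the bad cells. -/
theorem bad_cells {x e d ρ ρ' : ℝ} {J N : ℕ} (hx : 0 ≤ x) (he : 0 < e) (hde : d = N * e)
    (hJ : 1 ≤ e * J) (Bad : Finset ℕ) (hb : (Bad.card : ℝ) * d ≤ ρ)
    (hJ2 : (Bad.card : ℝ) ≤ ρ' * J) :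
    ∑ i ∈ Bad, ((mwi x e J ((i + 1) * N) - mwi x e J (i * N) : ℕ) : ℝ) ≤ (ρ + ρ') * J := by
  have h1 : ∑ i ∈ Bad, ((mwi x e J ((i + 1) * N) - mwi x e J (i * N) : ℕ) : ℝ) ≤
      ∑ _i ∈ Bad, (d * J + 1) := sum_le_sum fun i _ => mwi_sub_le hx he hde hJ
  rw [sum_const, nsmul_eq_mul] at h1
  have h2 := mul_le_mul_of_nonneg_right hb (Nat.cast_nonneg (α := ℝ) J)
  linarith

end Pool.PC
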