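import Pool.Agent.H83.PC.CelP
import Pool.Agent.H64.PC.Nmr2
import Pool.Agent.H64.PC.SinF2
import Pool.Agent.H64.PC.Strp
import Pool.Agent.H48.PC.PtdK

/-!
# Plan C: full steps at all windows below the target

`all_S`: the statement `AllSStmt`.
-/

set_option autoImplicit false

namespace Pool.PC

open Finset Real
open Pool.Agent.H49.Ent Pool.Agent.H32.Dense Pool.STK Pool.KA Pool.KSAT Pool.K2S Pool.UEG
open Pool.S6U Pool.OCG

variable {J : ℕ}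

theorem c₄_nonneg : 0 ≤ Pool.WF.c₄ := by
  have h1 : 0 ≤ Real.log 19 := Real.log_nonneg (by norm_num)
  unfold Pool.WF.c₄ Pool.WF.cvis
  have h2 : (0 : ℝ) ≤ Real.log (4 * 4 + 3) := Real.log_nonneg (by norm_num)
  have h3 : (0 : ℝ) ≤ Real.log (2 * ((2 : ℕ) * 4 * (2 * ((2 : ℕ) * 1 + 1))) + 3) :=
    Real.log_nonneg (by norm_num)
  push_cast at *
  positivity

/-- The windows of one interval of the mesh. -/
theorem msh_sub_le {n : ℕ} (t : ℕ) (ht : 1 ≤ t) :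
    ((msh J n t - msh J n (t - 1) : ℕ) : ℝ) ≤ J / n + 1 := by
  have h1 : msh J n (t - 1) ≤ msh J n t := msh_mono (Nat.sub_le t 1)
  rw [Nat.cast_sub h1]
  have h3 : (msh J n t : ℝ) ≤ (t : ℝ) / n * J := Nat.floor_le (by positivity)
  have h4 : ((t - 1 : ℕ) : ℝ) / n * J < (msh J n (t - 1) : ℝ) + 1 := Nat.lt_floor_add_one _
  have e : (t : ℝ) / n * J = ((t - 1 : ℕ) : ℝ) / n * J + J / n := by
    rw [Nat.cast_sub ht]
    push_cast
    ring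
  linarith only [h3, h4, e]

/-- The mesh point above a window. -/
theorem mup_lt {n t w : ℕ} (hn : 1 ≤ n) (hJ : n ≤ J) (hw : w < msh J n t)
    (hw2 : w ∉ Ioo (msh J n (t - 1)) (msh J n t)) : mup 0 (1 / (n : ℝ)) J w < t := by
  have ht : 1 ≤ t := by
    rcases Nat.eq_zero_or_pos t with h | h
    · rw [h] at hw
      unfold msh at hw
      simp at hw
    · exact h
  have h1 : w ≤ msh J n (t - 1) := by
    by_contra hcon
    exact hw2 (mem_Ioo.2 ⟨not_le.1 hcon, hw⟩)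
  have g00 : mwi 0 (1 / (n : ℝ)) J 0 ≤ w := by rw [mwi_0]; exact Nat.zero_le _
  have h2 := mup_le (x := 0) le_rfl (mshe hn) (mshJ hn hJ) g00
    (show w ≤ mwi 0 (1 / (n : ℝ)) J (t - 1) by rw [mwi_msh]; exact h1)
  omega

/-- **The union over the cells.** -/
theorem cells_union {F : Fam 2 J} {c : Nm} {B : ℕ → Bx F} {k n t : ℕ} {h x δ : ℝ}
    {a : ℕ → F.Ω → ℝ} {T : Finset ℕ} {X qa qb k' : ℕ} {ca ϖ κa ε₁ εN ρ ε : ℝ} {M N V : ℕ}
    (E : Env F c B k n t h x δ a T X qa qb k' ca ϖ κa ε₁ εN) (hρ : 0 < ρ) (hM : 0 < M)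
    (hMN : n = M * N) (hX : 1 ≤ X) (Bad : Finset ℕ) (hBad : Bad ⊆ range M)
    (hBc : (Bad.card : ℝ) / M ≤ ρ)
    (hcel : ∀ i < M, i ∉ Bad → CelP F c B k n t h x a T X V qa qb k' (msh J n (i * N))
      (msh J n ((i + 1) * N)) ρ ε)
    (hT : (T.card : ℝ) ≤ ρ * J) (hMJ : (M : ℝ) ≤ ρ * J) (hnJ : (J : ℝ) / n + 1 ≤ ρ * J)
    (hXJ : ((X + k' : ℕ) : ℝ) ≤ ρ * J) (hXJ2 : X + k' ≤ J) (hVJ : ((V + 1) * X : ℕ) ≤ ρ * J) :
    ∃ Bd : Finset (ℕ × ℕ), (Bd.card : ℝ) ≤ 8 * ρ * J * (qb - qa : ℕ) ∧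
      ∀ w q, w < msh J n t → w ≤ J → qa ≤ q → q < qb → (w, q) ∉ Bd →
        InS F (B k).i0 (vpc c (cpx c x) h n J) (fun w => zv (B k).i0 (a w)) X ε w q := by
  classical
  obtain ⟨Q, hQ⟩ : ∃ Q : ℝ, Q = (qb - qa : ℕ) := ⟨_, rfl⟩
  have hQ0 : 0 ≤ Q := by rw [hQ]; exact Nat.cast_nonneg _
  have hch : ∀ i, ∃ S : Finset (ℕ × ℕ), i < M → i ∉ Bad →
      ((S.card : ℝ) ≤ ρ * ((msh J n ((i + 1) * N) - msh J n (i * N) : ℕ) * (qb - qa : ℕ)) ∧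
      ∀ w q, msh J n (i * N) ≤ w → w < msh J n ((i + 1) * N) → qa ≤ q → q < qb → (w, q) ∉ S →
      w ∉ T → mup 0 (1 / (n : ℝ)) J w < t → w + X + k' ≤ J →
      q + vpc c (cpx c x) h n J w + w + (V + 1) * X ≤ J →
      InS F (B k).i0 (vpc c (cpx c x) h n J) (fun w => zv (B k).i0 (a w)) X ε w q) := by
    intro i
    by_cases hi : i < M ∧ i ∉ Bad
    · obtain ⟨S, h1, h2⟩ := hcel i hi.1 hi.2
      exact ⟨S, fun _ _ => ⟨h1, h2⟩⟩
    · exact ⟨∅, fun h1 h2 => absurd ⟨h1, h2⟩ hi⟩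
  choose S hS using hch
  obtain ⟨T', hT'⟩ : ∃ T' : Finset ℕ, T' = (T ∪ Ioo (msh J n (t - 1)) (msh J n t)) ∪
    Ioc (J - X - k') J := ⟨_, rfl⟩
  have hT'c : (T'.card : ℝ) ≤ (3 * ρ) * J := by
    have h1 : T'.card ≤ T.card + (Ioo (msh J n (t - 1)) (msh J n t)).card +
        (Ioc (J - X - k') J).card := by
      rw [hT']
      exact (card_union_le _ _).trans (Nat.add_le_add_right (card_union_le _ _) _)
    have h2 : ((Ioo (msh J n (t - 1)) (msh J n t)).card : ℝ) ≤ J / n + 1 := by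
      rw [Nat.card_Ioo]
      rcases Nat.eq_zero_or_pos t with h | h
      · rw [h]
        have : (0 : ℝ) ≤ J / n + 1 := by positivity
        simpa using this
      · refine le_trans ?_ (msh_sub_le (n := n) t h)
        exact_mod_cast Nat.sub_le _ 1
    have h3 : ((Ioc (J - X - k') J).card : ℝ) ≤ (X + k' : ℕ) := by
      rw [Nat.card_Ioc]
      have : J - (J - X - k') ≤ X + k' := by omega
      exact_mod_cast this
    have h4 : (T'.card : ℝ) ≤ T.card + (Ioo (msh J n (t - 1)) (msh J n t)).card +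
        (Ioc (J - X - k') J).card := by exact_mod_cast h1
    linarith only [hT, hnJ, hXJ, h2, h3, h4]
  have hlo : Monotone (fun i => msh J n (i * N)) := fun i j hij =>
    msh_mono (Nat.mul_le_mul_right N hij)
  have hloM : msh J n (M * N) ≤ J := by rw [← hMN, msh_n E.n1]
  have hMr : (0 : ℝ) < M := by exact_mod_cast hM
  have hnr : (0 : ℝ) < n := by exact_mod_cast E.n1
  have hbad : ∑ i ∈ Bad, ((msh J n ((i + 1) * N) - msh J n (i * N) : ℕ) : ℝ) ≤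
      (ρ + ρ) * J := by
    have h1 := bad_cells (x := 0) (e := 1 / (n : ℝ)) (d := 1 / (M : ℝ)) (ρ := ρ) (ρ' := ρ)
      (J := J) (N := N) le_rfl (mshe E.n1) (by
        have e1 : (n : ℝ) = M * N := by exact_mod_cast hMN
        have hN : (N : ℝ) ≠ 0 := by
          intro h0
          rw [e1, h0, mul_zero] at hnr
          exact lt_irrefl _ hnr
        rw [e1]
        field_simp) (mshJ E.n1 E.nJ) Bad (by rw [mul_one_div]; exact hBc) (by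
        have h2 : Bad.card ≤ M := by
          have := card_le_card hBad
          rwa [card_range] at this
        have h3 : (Bad.card : ℝ) ≤ M := by exact_mod_cast h2
        exact h3.trans hMJ)
    simpa only [mwi_msh] using h1
  obtain ⟨Bd, hBd1, hBd2⟩ := bd_union (J := J) (M := M) (qa := qa) (qb := qb) hlo hloM Bad T' S
    hρ.le (fun i hi hb => (hS i hi hb).1) hbad hT'c
  have hst := strip_card (vpc c (cpx c x) h n J) (fun w w' hw => vpc_mono E.cok.rm E.n1 hw)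
    J qa qb ((V + 1) * X)
  refine ⟨Bd ∪ (range (J + 1) ×ˢ Ico qa qb).filter (fun y => y.2 + vpc c (cpx c x) h n J y.1 +
    y.1 ≤ J ∧ J < y.2 + vpc c (cpx c x) h n J y.1 + y.1 + (V + 1) * X), ?_, ?_⟩
  · have h1 : ((Bd ∪ (range (J + 1) ×ˢ Ico qa qb).filter (fun y => y.2 +
        vpc c (cpx c x) h n J y.1 + y.1 ≤ J ∧ J < y.2 + vpc c (cpx c x) h n J y.1 + y.1 +
        (V + 1) * X)).card : ℝ) ≤ Bd.card + ((V + 1) * X : ℕ) * Q := by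
      rw [hQ]
      exact_mod_cast (card_union_le _ _).trans (Nat.add_le_add_left hst _)
    have h2 : (((V + 1) * X : ℕ) : ℝ) * Q ≤ ρ * J * Q := mul_le_mul_of_nonneg_right hVJ hQ0
    have h3 : 0 ≤ ρ * J * Q := by positivity
    rw [← hQ] at hBd1 ⊢
    linarith only [hBd1, h1, h2]
  · intro w q hwt hwJ hq1 hq2 hwq hJ
    rw [mem_union, not_or] at hwq
    have hvm : vpc c (cpx c x) h n J w ≤ vpc c (cpx c x) h n J (w + X) :=
      vpc_mono E.cok.rm E.n1 (Nat.le_add_right _ _)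
    have hw0 : msh J n (0 * N) ≤ w := by
      rw [zero_mul]
      unfold msh
      simp
    have hwM : w < msh J n (M * N) := by
      rw [← hMN, msh_n E.n1]
      omega
    obtain ⟨g1, i, hi, hb, g2, g3, g4⟩ := hBd2 w q hw0 hwM hq1 hq2 hwq.1
    rw [hT', mem_union, mem_union, not_or, not_or] at g1
    obtain ⟨⟨k1, k2⟩, k3⟩ := g1
    refine (hS i hi hb).2 w q g2 g3 hq1 hq2 g4 k1 (mup_lt E.n1 E.nJ hwt k2) ?_ ?_ hJ
    · by_contra hcon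
      refine k3 (mem_Ioc.2 ⟨?_, hwJ⟩)
      omega
    · by_contra hcon
      refine hwq.2 (mem_filter.2 ⟨mem_product.2 ⟨mem_range.2 (by omega), mem_Ico.2 ⟨hq1, hq2⟩⟩,
        ?_, not_le.1 hcon⟩)
      show q + vpc c (cpx c x) h n J w + w ≤ J
      omega

/-- The sizes of the blocks. -/
structure Siz (κf ρ : ℝ) (J M X V k' m₀ X₀ : ℕ) : Prop where
  Jr : (0 : ℝ) < J
  MJ : (M : ℝ) ≤ ρ * J
  J2 : 2 ≤ ρ * J
  G2 : 2 ≤ 1 / (M : ℝ) * J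
  XG : (X : ℝ) ≤ 1 / M * J
  Xm : m₀ ≤ X
  X0 : X₀ ≤ X
  Xk : k' ≤ X
  X1 : 1 ≤ X
  Xκ : 2 ≤ κf * X
  Xρ : ((X + k' : ℕ) : ℝ) ≤ ρ * J
  XJ : X + k' ≤ J
  VX : (((V + 1) * X : ℕ) : ℝ) ≤ ρ * J

theorem siz_of {κ κf ρ : ℝ} {J M X V k' m₀ X₀ : ℕ} (hκ : 0 < κ) (hκ1 : κ ≤ 1) (hκf : 0 < κf)
    (hρ : 0 < ρ) (hM : 0 < M) (hM2 : 1 / (M : ℝ) ≤ 1 / 2) (hMV : 1 / (M : ℝ) * (V + 3) ≤ ρ)
    (hJ : ((m₀ : ℝ) + X₀ + k' + 2 / κf + 2) / (κ / 2 * (1 / M)) + M / ρ + 2 / ρ + 2 * M ≤ J)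
    (hX1 : κ / 2 * (1 / M * J) ≤ X) (hX2 : (X : ℝ) ≤ κ * (1 / M * J)) :
    Siz κf ρ J M X V k' m₀ X₀ := by
  have hMr : (0 : ℝ) < M := by exact_mod_cast hM
  obtain ⟨Y, hY⟩ : ∃ Y : ℝ, Y = κ / 2 * (1 / M) := ⟨_, rfl⟩
  have hY0 : 0 < Y := by rw [hY]; positivity
  obtain ⟨S₀, hS₀⟩ : ∃ S₀ : ℝ, S₀ = (m₀ : ℝ) + X₀ + k' + 2 / κf + 2 := ⟨_, rfl⟩
  have q1 : (0 : ℝ) ≤ m₀ := Nat.cast_nonneg _
  have q2 : (0 : ℝ) ≤ X₀ := Nat.cast_nonneg _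
  have q3 : (0 : ℝ) ≤ k' := Nat.cast_nonneg _
  have q4 : 0 < 2 / κf := by positivity
  have hS₀0 : 0 < S₀ := by rw [hS₀]; positivity
  rw [← hY, ← hS₀] at hJ
  have p1 : 0 < S₀ / Y := by positivity
  have p2 : 0 < (M : ℝ) / ρ := by positivity
  have p3 : 0 < 2 / ρ := by positivity
  have hJr : (0 : ℝ) < J := by linarith only [hMr, hJ, p1, p2, p3]
  have hYJ : S₀ ≤ Y * J := by
    have h1 : S₀ / Y ≤ J := by linarith only [hMr, hJ, p2, p3]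
    rw [div_le_iff₀ hY0] at h1
    linarith only [h1]
  have hMJ : (M : ℝ) ≤ ρ * J := by
    have h1 : (M : ℝ) / ρ ≤ J := by linarith only [hMr, hJ, p1, p3]
    rw [div_le_iff₀ hρ] at h1
    linarith only [h1]
  have h2J : 2 ≤ ρ * J := by
    have h1 : 2 / ρ ≤ J := by linarith only [hMr, hJ, p1, p2]
    rw [div_le_iff₀ hρ] at h1
    linarith only [h1]
  have h2M : 2 * (M : ℝ) ≤ J := by linarith only [hJ, p1, p2, p3]
  obtain ⟨G, hGE⟩ : ∃ G : ℝ, G = 1 / M * J := ⟨_, rfl⟩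
  have hG2 : 2 ≤ G := by
    rw [hGE, div_mul_eq_mul_div, one_mul, le_div_iff₀ hMr]
    exact h2M
  have hXS : S₀ ≤ X := by
    refine hYJ.trans ?_
    rw [hY]
    linarith only [hX1]
  rw [← hGE] at hX2
  have hXG : (X : ℝ) ≤ G := hX2.trans (mul_le_of_le_one_left (by linarith only [hG2]) hκ1)
  have hV0 : (0 : ℝ) ≤ V := Nat.cast_nonneg V
  have hGV : G * (V + 3) ≤ ρ * J := by
    rw [hGE]
    have := mul_le_mul_of_nonneg_right hMV hJr.le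
    linarith only [this]
  have hkX : (k' : ℝ) ≤ X := by linarith only [hS₀, q4, hXS]
  refine ⟨hJr, hMJ, h2J, hGE ▸ hG2, hGE ▸ hXG, ?_, ?_, by exact_mod_cast hkX, ?_, ?_, ?_, ?_, ?_⟩
  · have : (m₀ : ℝ) ≤ X := by linarith only [hS₀, q4, hXS]
    exact_mod_cast this
  · have : (X₀ : ℝ) ≤ X := by linarith only [hS₀, q4, hXS]
    exact_mod_cast this
  · have : (1 : ℝ) ≤ X := by linarith only [hS₀, q4, hXS]
    exact_mod_cast this
  · have h1 : 2 / κf ≤ X := by linarith only [hS₀, hXS]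
    rw [div_le_iff₀ hκf] at h1
    linarith only [h1]
  · push_cast
    have h2 : G * 2 ≤ G * (V + 3) := by
      refine mul_le_mul_of_nonneg_left ?_ (by linarith only [hS₀, q4, hXS, hXG])
      linarith only
    linarith only [hS₀, q4, hXS, hXG, hGV, h2]
  · have h1 : G ≤ 1 / 2 * J := by
      rw [hGE]
      exact mul_le_mul_of_nonneg_right hM2 hJr.le
    have h2 : ((X + k' : ℕ) : ℝ) ≤ J := by
      push_cast
      linarith only [hS₀, q4, hXS, hXG, h1]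
    exact_mod_cast h2
  · have h2 : ((V : ℝ) + 1) * X ≤ (V + 1) * G := mul_le_mul_of_nonneg_left hXG (by positivity)
    have h3 : ((V : ℝ) + 1) * G ≤ G * (V + 3) := by
      have : 0 ≤ G * 2 := by linarith only [hS₀, q4, hXS, hXG]
      linarith only [hS₀, q4, hXS, hXG]
    push_cast
    linarith only [hS₀, q4, hXS, hXG, hGV, h2]

/-- **The environment.** -/
theorem env_of {F : Fam 2 J} {c : Nm} {B : ℕ → Bx F} {k n t : ℕ} {h x δ : ℝ}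
    {a : ℕ → F.Ω → ℝ} {T : Finset ℕ} {X qa qb k' : ℕ} {ca ϖ κa ε₁ εN yb : ℝ}
    (hok : (B k).Ok (fun _ => True)) (hc : c.Ok δ) (hL : Lvl F c n h B k)
    (hLev : Lev F F.p (B k).a (vpc c (cpx c x) h n J) 0 J a) (hn : 1 ≤ n) (hnJ : n ≤ J)
    (hh0 : 0 < h) (hleε : h ≤ ε₁ * ϖ) (hle12 : h ≤ 1 / 2) (hlex : h ≤ x / 8) (hϖ : 0 < ϖ)
    (hϖ1 : ϖ ≤ 1) (hε₁ : 0 < ε₁) (hx : 0 < x) (hxn : x < c.n - c.q) (hJr : (0 : ℝ) < J)
    (htc : ∀ i < t, c.rot (i / n) < cpx c x) (hqab : qa ≤ qb) (hyb : yb ≤ x / 2)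
    (hqb : (qb : ℝ) + X ≤ (B k).q + yb * J) (hTg : ∀ w, w ∉ T → Tgo F X k' ϖ εN w)
    (hact : (B k).q + yb * J ≤ J → yb ≤ 1 → ∀ q' X' : ℕ, κa * X ≤ X' → X' ≤ X → qa ≤ q' →
      q' + X' ≤ qb + X → ∀ E : F.Ω → Prop, ϖ ≤ Pe F.p E →
      ca * X' * Real.log 2 + Pool.WF.c₄ ≤ CH (Pool.Agent.H49.Ent.cond F.p E True)
        (Pool.WF.vc F (B k).i0 (q' + X')) (fun ω => (ptk B k ω, Pool.WF.vc F (B k).i0 q' ω))) :
    Env F c B k n t h x δ a T X qa qb k' ca ϖ κa ε₁ εN := by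
  have hcap : 0 ≤ cpx c x := by unfold cpx; linarith only [hxn]
  have hBq := abs_le.1 hL.hq
  have hBn := abs_le.1 hL.hn
  have hn1 := hc.n1
  have hq0 := hc.q0
  have hybJ : yb * J ≤ x / 2 * J := mul_le_mul_of_nonneg_right hyb hJr.le
  have hhJ : h * J ≤ x / 8 * J := mul_le_mul_of_nonneg_right hlex hJr.le
  have hxJ : x * J ≤ (c.n - c.q) * J := mul_le_mul_of_nonneg_right hxn.le hJr.le
  have hnJ1 : c.n * J ≤ 1 * J := mul_le_mul_of_nonneg_right hn1 hJr.le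
  have hxJ0 : 0 ≤ x * J := by positivity
  refine ⟨hok, hc, hL, hLev, hn, hnJ, hh0, hle12.trans_lt (by norm_num), hleε, hϖ, hϖ1, hε₁, hx,
    hxn, htc, hqab, ?_, hTg, hact ?_ ?_⟩
  · intro w
    have h1 := vpc_cap83 (c := c) (h := h) (n := n) (J := J) hcap hh0.le w
    have h2 : cpx c x * J = c.n * J - c.q * J - x * J := by unfold cpx; ring
    have h3 : ((qb + X + vpc c (cpx c x) h n J w : ℕ) : ℝ) ≤ (B k).n := by
      push_cast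
      have h4 : (qb : ℝ) + X ≤ c.q * J + h * J + x / 2 * J := by linarith only [hqb, hBq, hybJ]
      linarith only [hqb, hBq, hBn, hybJ, hhJ, h1, h2]
    exact_mod_cast h3
  · linarith only [hBq, hybJ, hhJ, hxJ, hnJ1]
  · linarith only [hh0, hlex, hxn, hyb, hn1, hq0]

/-- **One good cell.** -/
theorem cel_of {F : Fam 2 J} {c : Nm} {B : ℕ → Bx F} {k n t : ℕ} {h x δ : ℝ}
    {a : ℕ → F.Ω → ℝ} {T : Finset ℕ} {qa qb k' : ℕ} {ca ϖ κa ε₁ εN : ℝ}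
    {ε ρ x₀ x₁ γ κ κf Cql Cm : ℝ} {V nn d₀ dd C X₀ M N tt i : ℕ}
    (hRis : RisP ε ca ρ x₁ ϖ κa ε₁ εN γ V k' nn d₀)
    (hFlt : FltP ε ca ρ x₀ ϖ κf ε₁ εN γ k' C X₀) (hx₁ : 0 < x₁) (hγ : 0 < γ)
    (hκa2 : κa ≤ κf / 2) (hκf1 : κf ≤ 1) (hκC : κ * C ≤ γ / 2) (hCm1 : Cql ≤ Cm) (hCm3 : 3 ≤ Cm)
    (E : Env F c B k n t h x δ a T (nn * dd) qa qb k' ca ϖ κa ε₁ εN) (hdd : d₀ ≤ dd)
    (S : Siz κf ρ J M (nn * dd) V k' (nn * d₀) X₀) (hM : 0 < M) (hMN : n = M * N) (hi : i < M)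
    (hX2 : ((nn * dd : ℕ) : ℝ) ≤ κ * (1 / M * J)) (hCq : Cm * (1 / M * J) ≤ γ * (qb - qa : ℕ))
    (hOk : CellOk (fun y => min (c.rot y) (cpx c x)) 0 (1 / M) (1 / (n : ℝ)) (2 * h) (h + 2 / J)
      x₀ x₁ γ C 1 Cql N J (nn * dd) tt i)
    (hrate : ∀ w, msh J n (i * N) ≤ w → w + nn * dd ≤ msh J n ((i + 1) * N) →
      vpc c (cpx c x) h n J (w + nn * dd) ≤ vpc c (cpx c x) h n J w + V * (nn * dd)) :
    CelP F c B k n t h x a T (nn * dd) V qa qb k' (msh J n (i * N)) (msh J n ((i + 1) * N))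
      ρ ε := by
  have hiN : (i + 1) * N ≤ n := by
    rw [hMN]
    exact Nat.mul_le_mul_right N hi
  obtain ⟨l1, l2⟩ := cell_len (J := J) (i := i) E.n1 hM hMN
  have hG2 := S.G2
  have hXG := S.XG
  obtain ⟨G, hGE⟩ : ∃ G : ℝ, G = 1 / M * J := ⟨_, rfl⟩
  rw [← hGE] at l1 l2 hG2 hXG hX2 hCq
  have hX0r : (0 : ℝ) ≤ (nn * dd : ℕ) := Nat.cast_nonneg _
  have hCr : (0 : ℝ) ≤ C := Nat.cast_nonneg _
  have hQl : Cql * (1 / M) * J ≤ γ * (qb - qa : ℕ) := by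
    have h1 : Cql * G ≤ Cm * G := mul_le_mul_of_nonneg_right hCm1 (by linarith only [hG2])
    have e : Cql * (1 / M) * J = Cql * G := by rw [hGE]; ring
    linarith only [hCq, h1, e]
  rcases hOk.alt with hS | hS
  · exact rise_ok hRis hx₁ E hdd hiN hOk hrate S.Xk hQl hS
  · refine flat_ok hFlt hκf1 (fun R hRJ => Pool.FLT.ptd_ptk (A := fun _ => True)
      (fun _ _ => trivial) B hRJ (sg0 _) (sg1 _) E.ok) E S.X0 ?_ hiN hOk ?_ ?_ hS c₄_nonneg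
    · have h1 := Nat.lt_floor_add_one (κf * ((nn * dd : ℕ) : ℝ))
      have h2 : κa * ((nn * dd : ℕ) : ℝ) ≤ κf / 2 * (nn * dd : ℕ) :=
        mul_le_mul_of_nonneg_right hκa2 hX0r
      have h3 := S.Xκ
      linarith only [h1, h2, h3]
    · have h1 : (C : ℝ) * (nn * dd : ℕ) ≤ C * (κ * G) := mul_le_mul_of_nonneg_left hX2 hCr
      have h2 : C * (κ * G) ≤ γ / 2 * G := by
        have := mul_le_mul_of_nonneg_right hκC (show 0 ≤ G by linarith only [hG2])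
        linarith only [this]
      have h3 := mul_le_mul_of_nonneg_left l1 hγ.le
      have h4 : γ / 2 * G ≤ γ * (G - 1) := by nlinarith only [hγ, hG2]
      linarith only [h1, h2, h3, h4]
    · have hkr : (k' : ℝ) ≤ (nn * dd : ℕ) := by exact_mod_cast S.Xk
      have h1 : 3 * G ≤ Cm * G := mul_le_mul_of_nonneg_right hCm3 (by linarith only [hG2])
      rw [Nat.cast_add]
      linarith only [hCq, hXG, hG2, l2, hkr, h1]

/-- The smallest constants of the two theorems. -/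
theorem consts (ε ca ρ : ℝ) (V : ℕ) (hε : 0 < ε) (hca : 0 < ca) (hρ : 0 < ρ) :
    ∃ (x₀ x₁ ϖ κf κa ε₁ εN : ℝ), 0 < x₀ ∧ x₀ ≤ 1 ∧ 0 < x₁ ∧ 0 < ϖ ∧ ϖ ≤ 1 ∧ 0 < κf ∧ κf ≤ 1 ∧
      0 < κa ∧ κa ≤ κf / 2 ∧ 0 < ε₁ ∧ 0 < εN ∧ ∀ k' : ℕ, ∃ (γ : ℝ) (nn d₀ C X₀ : ℕ), 0 < γ ∧
      γ ≤ 1 ∧ 1 ≤ nn ∧ 1 ≤ C ∧ RisP ε ca ρ x₁ ϖ κa ε₁ εN γ V k' nn d₀ ∧
      FltP ε ca ρ x₀ ϖ κf ε₁ εN γ k' C X₀ := by
  obtain ⟨x₁, ϖr, κ₀, ε₁r, εNr, hx₁, hϖr, hϖr1, hκ₀, hε₁r, hεNr, hris⟩ :=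
    rise_cell ε ca ρ V hε hca hρ
  obtain ⟨x₀, ϖf, κf, ε₁f, εNf, hx₀, hx₀1, hϖf, hκf, hκf1, hε₁f, hεNf, hflt⟩ :=
    flat_cell1 ε ca ρ hε hca hρ
  refine ⟨x₀, x₁, min ϖr ϖf, κf, min κ₀ (κf / 2), min ε₁r ε₁f, min εNr εNf, hx₀, hx₀1, hx₁,
    lt_min hϖr hϖf, (min_le_left _ _).trans hϖr1, hκf, hκf1, lt_min hκ₀ (half_pos hκf),
    min_le_right _ _, lt_min hε₁r hε₁f, lt_min hεNr hεNf, ?_⟩
  intro k'
  obtain ⟨γr, nn, d₀, hγr, hγr1, hnn, hd₀, hris⟩ := hris k'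
  obtain ⟨γf, C, X₀, hγf, hγf1, hC, hflt⟩ := hflt k'
  have hRis0 : RisP ε ca ρ x₁ ϖr κ₀ ε₁r εNr γr V k' nn d₀ := @hris
  have hFlt0 : FltP ε ca ρ x₀ ϖf κf ε₁f εNf γf k' C X₀ := @hflt
  exact ⟨min γr γf, nn, d₀, C, X₀, lt_min hγr hγf, (min_le_left _ _).trans hγr1, hnn, hC,
    hRis0.mono (min_le_left _ _) (min_le_left _ _) (min_le_left _ _) (min_le_left _ _)
      (min_le_left _ _),
    hFlt0.mono (min_le_right _ _) (min_le_right _ _) (min_le_right _ _) (min_le_right _ _)⟩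

/-- **The full steps at all windows below the target.** -/
theorem all_S : AllSStmt := by
  intro ε ca ρ hε hca hρ
  obtain ⟨V, hV⟩ : ∃ V : ℕ, V = ⌈2 / ρ⌉₊ + 3 := ⟨_, rfl⟩
  have hVr : 2 / ρ + 3 ≤ (V : ℝ) := by
    rw [hV]
    push_cast
    have := Nat.le_ceil (2 / ρ)
    linarith only [this]
  obtain ⟨x₀, x₁, ϖ, κf, κa, ε₁, εN, hx₀, hx₀1, hx₁, hϖ, hϖ1, hκf, hκf1, hκa, hκa2, hε₁, hεN,
    hcon⟩ := consts ε (ca / 2) ρ V hε (half_pos hca) hρ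
  refine ⟨ϖ, εN, κa, hϖ, hϖ1, hεN, hκa, by linarith only [hκf1, hκa, hκa2], ?_⟩
  intro k'
  obtain ⟨γ, nn, d₀, C, X₀, hγ, hγ1, hnn, hC, hRis, hFlt⟩ := hcon k'
  clear hcon
  have hCr : (1 : ℝ) ≤ C := by exact_mod_cast hC
  obtain ⟨κ, Cql, hκ, hκ1, hκC, hCql, hlev⟩ :=
    level_nmr2 hx₀ hx₀1 hx₁ hγ hγ1 hρ hCr (zero_le_one : (0 : ℝ) ≤ 1)
  obtain ⟨Cm, hCm1, hCm3⟩ : ∃ Cm, Cql ≤ Cm ∧ 3 ≤ Cm := ⟨max Cql 3, le_max_left _ _, le_max_right _ _⟩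
  refine ⟨κ, Cm / γ, nn, hκ, hκ1, div_pos (by linarith only [hκf1, hκa, hκa2, hCm3]) hγ, hnn, ?_⟩
  intro c δ x hc hx hxn d' hd'
  have hcap : 0 ≤ cpx c x := by unfold cpx; linarith only [hxn]
  obtain ⟨M, hM, hMd, Bad, hBad, hBc, n₁, hn₁, hlev⟩ := hlev c δ hc (cpx c x) hcap
    (min d' (min (ρ / (V + 3)) (1 / 2))) (lt_min hd' (lt_min (by positivity) (by norm_num)))
  have hMr : (0 : ℝ) < M := by exact_mod_cast hM
  have hMd' : 1 / (M : ℝ) ≤ d' := hMd.trans (min_le_left _ _)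
  have hMV : 1 / (M : ℝ) * (V + 3) ≤ ρ := by
    have h1 : 1 / (M : ℝ) ≤ ρ / (V + 3) :=
      hMd.trans ((min_le_right _ _).trans (min_le_left _ _))
    rwa [le_div_iff₀ (by positivity)] at h1
  have hM2 : 1 / (M : ℝ) ≤ 1 / 2 := hMd.trans ((min_le_right _ _).trans (min_le_right _ _))
  obtain ⟨n₂, hn₂, hpt⟩ := Pool.WF.pt_lvl ca (κa * κ / (2 * M)) Pool.WF.c₄ hca (by positivity)
  refine ⟨M, hM, hMd', n₁ * (n₂ * (⌈2 / ρ⌉₊ + 1)), by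
    have h1 : 1 ≤ n₂ * (⌈2 / ρ⌉₊ + 1) := Nat.mul_pos hn₂ (Nat.succ_pos _)
    exact Nat.mul_pos hn₁ h1, ?_⟩
  intro n hn hdvd
  have hdv1 : n₁ ∣ n := (Dvd.intro _ rfl).trans hdvd
  have hdv2 : n₂ ∣ n := ((Dvd.intro _ rfl).trans (Dvd.intro_left n₁ rfl)).trans hdvd
  have hdv3 : ⌈2 / ρ⌉₊ + 1 ∣ n :=
    ((Dvd.intro_left n₂ rfl).trans (Dvd.intro_left n₁ rfl)).trans hdvd
  have hn2n : n₂ ≤ n := Nat.le_of_dvd hn hdv2
  have hnr : (0 : ℝ) < n := by exact_mod_cast hn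
  have hnρ : 2 / ρ ≤ n := by
    have h2 : ((⌈2 / ρ⌉₊ + 1 : ℕ) : ℝ) ≤ n := by exact_mod_cast Nat.le_of_dvd hn hdv3
    rw [Nat.cast_add, Nat.cast_one] at h2
    exact (Nat.le_ceil _).trans ((le_add_of_nonneg_right zero_le_one).trans h2)
  obtain ⟨N, hN, hMN, h₁, hh₁, hlev⟩ := hlev n hn hdv1
  obtain ⟨h₂, J₂, hh₂, hpt⟩ := hpt n hn2n
  obtain ⟨h₃, hh₃E⟩ : ∃ h₃, h₃ = min (ε₁ * ϖ) (min ϖ (min (1 / 2) (x / 8))) := ⟨_, rfl⟩
  have hh₃ : 0 < h₃ := by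
    rw [hh₃E]
    exact lt_min (mul_pos hε₁ hϖ) (lt_min hϖ (lt_min (by norm_num) (by positivity)))
  refine ⟨min h₁ (min h₂ h₃), lt_min hh₁ (lt_min hh₂ hh₃), ?_⟩
  intro h hh0 hhle
  have hle1 : h ≤ h₁ := hhle.trans (min_le_left _ _)
  have hle2 : h ≤ h₂ := hhle.trans ((min_le_right _ _).trans (min_le_left _ _))
  have hle3 : h ≤ h₃ := hhle.trans ((min_le_right _ _).trans (min_le_right _ _))
  rw [hh₃E] at hle3
  have hleε : h ≤ ε₁ * ϖ := hle3.trans (min_le_left _ _)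
  have hleϖ : h ≤ ϖ := hle3.trans ((min_le_right _ _).trans (min_le_left _ _))
  have hle12 : h ≤ 1 / 2 :=
    hle3.trans ((min_le_right _ _).trans ((min_le_right _ _).trans (min_le_left _ _)))
  have hlex : h ≤ x / 8 :=
    hle3.trans ((min_le_right _ _).trans ((min_le_right _ _).trans (min_le_right _ _)))
  obtain ⟨J₁, hlev⟩ := hlev h hh0 hle1
  obtain ⟨J₃, hJ₃⟩ := exists_nat_ge ((((nn * d₀ : ℕ) : ℝ) + X₀ + k' + 2 / κf + 2) /
    (κ / 2 * (1 / M)) + M / ρ + 2 / ρ + 2 * M)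
  refine ⟨max J₁ (max J₂ J₃), ?_⟩
  intro J hJ F B k hok hL a hLev t ht htc ya yb hya hyb hG X qa qb hnnX hX1 hX2 hqa hqb hCq T hT hTg
  have hJ1 : J₁ ≤ J := (le_max_left _ _).trans hJ
  have hJ2 : J₂ ≤ J := (le_max_left _ _).trans ((le_max_right _ _).trans hJ)
  have hJ3 : J₃ ≤ J := (le_max_right _ _).trans ((le_max_right _ _).trans hJ)
  have S : Siz κf ρ J M X V k' (nn * d₀) X₀ := siz_of hκ hκ1 hκf hρ hM hM2 hMV
    (hJ₃.trans (by exact_mod_cast hJ3)) hX1 hX2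
  obtain ⟨hnJ, -, hlev⟩ := hlev J hJ1
  obtain ⟨tt, hcell⟩ := hlev X hX1 hX2
  clear hlev
  -- the cell of velocity scales
  have hCq' : Cm * (1 / M * J) ≤ γ * (qb - qa : ℕ) := by
    have h1 := mul_le_mul_of_nonneg_left hCq hγ.le
    have e : ∀ G : ℝ, γ * (Cm / γ * G) = Cm * G := fun G => by field_simp
    rw [e] at h1
    exact h1
  have hqab : qa ≤ qb := by
    by_contra hcon
    have h1 : qb - qa = 0 := Nat.sub_eq_zero_of_le (not_le.1 hcon).le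
    rw [h1, Nat.cast_zero, mul_zero] at hCq'
    have h2 : 0 < Cm * (1 / M * J) := mul_pos (lt_of_lt_of_le (by norm_num) hCm3)
      (lt_of_lt_of_le (by norm_num) S.G2)
    exact absurd hCq' (not_le.2 h2)
  have E : Env F c B k n t h x δ a T X qa qb k' (ca / 2) ϖ κa ε₁ εN := by
    refine env_of hok hc hL hLev hn hnJ hh0 hleε hle12 hlex hϖ hϖ1 hε₁ hx hxn S.Jr htc hqab hyb
      hqb hTg ?_
    intro hBJ hyb1 q' X' hX' hX'X hq' hq'X Ev hEv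
    refine hpt J F c h ya yb B k hJ2 hle2 hya hyb1 hL hBJ ?_ q' X' ?_ ?_ ?_ Ev (hleϖ.trans hEv)
    · intro y₁ y₂ g1 g2 g3
      refine hG y₁ y₂ g1 ?_ g3
      have e : κa * κ / (2 * M) / 2 = κa * κ / (4 * M) := by
        rw [div_div]
        congr 1
        ring
      rwa [e] at g2
    · refine le_trans ?_ hX'
      have h1 := mul_le_mul_of_nonneg_left hX1 hκa.le
      refine le_trans (le_of_eq ?_) h1
      field_simp
    · exact hqa.trans (by exact_mod_cast hq')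
    · exact le_trans (by exact_mod_cast hq'X) hqb
  -- the union
  obtain ⟨dd, rfl⟩ := hnnX
  have hdd : d₀ ≤ dd := Nat.le_of_mul_le_mul_left S.Xm hnn
  refine cells_union E hρ hM hMN S.X1 Bad hBad hBc (fun i hi hb => ?_) hT S.MJ ?_ S.Xρ S.XJ S.VX
  · exact cel_of hRis hFlt hx₁ hγ hκa2 hκf1 hκC hCm1 hCm3 E hdd S hM hMN hi hX2 hCq'
      (hcell i hi hb).1 (fun w g1 g2 => (hcell i hi hb).2 V hVr w g1 g2)
  · have hJr := S.Jr
    have h2J := S.J2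
    have h1 : (J : ℝ) / n ≤ ρ * J / 2 := by
      rw [div_le_iff₀ hnr]
      rw [div_le_iff₀ hρ] at hnρ
      have h3 := mul_le_mul_of_nonneg_left hnρ hJr.le
      calc (J : ℝ) = J * 2 / 2 := by ring
        _ ≤ J * (n * ρ) / 2 := by
            exact div_le_div_of_nonneg_right h3 (by norm_num)
        _ = ρ * J / 2 * n := by ring
    calc (J : ℝ) / n + 1 ≤ ρ * J / 2 + ρ * J / 2 := add_le_add h1 (by
          rw [le_div_iff₀ (by norm_num : (0 : ℝ) < 2), one_mul]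
          exact h2J)
      _ = ρ * J := by ring

end Pool.PC
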