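import Pool.Agent.H92.PC.Cel
import Pool.Agent.H64.PC.SinF
import Pool.Agent.H55.PC.FlatFr

/-!
# Plan C: one good cell

`Env`: the hypotheses on one family, at one level, which do not depend on the cell. `CelP`: outside
few pairs `(w, q)`, the windows of the cell have full steps. `rise_ok`, `flat_ok`: a rising and a
flat cell.
-/

set_option autoImplicit false

namespace Pool.PC

open Finset Real
open Pool.Agent.H49.Ent Pool.Agent.H32.Dense Pool.STK Pool.KA Pool.KSAT Pool.K2S Pool.UEG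
open Pool.S6U Pool.OCG

variable {J : ℕ}

/-! ### The rectangle theorems with their constants -/

/-- The full step on rising rectangles. -/
def RisP (ε ca ρ x₁ ϖ κ₀ ε₁ εN γ : ℝ) (V k' n d₀ : ℕ) : Prop :=
  ∀ {J : ℕ} (F : Fam 2 J) (σ : Fin 2 → Fin 2) (wa wb : ℕ) (vp : ℕ → ℕ) (D R : ℕ)
      (a : ℕ → F.Ω → ℝ) (al : F.Ω → ℝ) (z : ℕ → F.Ω → Fin 2 → ℝ) (d tt qa qb : ℕ), d₀ ≤ d →
      Rc2 F F.p σ wa wb vp D a al → Sh2 wa wb vp D R tt (n * d) qa qb γ →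
      wb ≤ R → R ≤ J → (∀ w, wa ≤ w → w ≤ wb → Zof σ (a w) (z w)) →
      (∀ w, wa ≤ w → w + n * d ≤ wb → vp (w + n * d) ≤ vp w + V * (n * d)) →
      ∃ B : Finset (ℕ × ℕ), B ⊆ Ico wa wb ×ˢ Ico qa qb ∧
        (B.card : ℝ) ≤ ρ * ((wb - wa : ℕ) * (qb - qa : ℕ)) ∧
        ∀ w q, wa ≤ w → w < wb → qa ≤ q → q < qb → (w, q) ∉ B →
          w + n * d ≤ wb ∧ q + V * (n * d) < qb ∧
          (Wtt F vp D R a al (n * d) k' x₁ ϖ ε₁ εN w →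
            (∀ j ≤ V, Ha2 F F.p σ vp a (n * d) ϖ κ₀ ca w (q + j * (n * d))) →
            q + vp (w + n * d) + (w + n * d) ≤ J →
            cVol J (w + n * d) q (vp (w + n * d)) - cVol J w q (vp w) - ε * (n * d : ℕ) ≤
              cNf F (w + n * d) q (vp (w + n * d)) (σ 0) (z (w + n * d)) -
                cNf F w q (vp w) (σ 0) (z w))

theorem RisP.mono {ε ca ρ x₁ ϖ κ₀ ε₁ εN γ ϖ' κ' ε' εN' γ' : ℝ} {V k' n d₀ : ℕ}
    (h : RisP ε ca ρ x₁ ϖ κ₀ ε₁ εN γ V k' n d₀) (h1 : ϖ' ≤ ϖ) (h2 : κ' ≤ κ₀) (h3 : ε' ≤ ε₁)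
    (h4 : εN' ≤ εN) (h5 : γ' ≤ γ) : RisP ε ca ρ x₁ ϖ' κ' ε' εN' γ' V k' n d₀ := by
  intro J F σ wa wb vp D R a al z d tt qa qb hd hRc hS hwR hRJ hz hrate
  have hW0 : (0 : ℝ) ≤ (wb + 1 - wa : ℕ) := Nat.cast_nonneg _
  have hQ0 : (0 : ℝ) ≤ (qb - qa : ℕ) := Nat.cast_nonneg _
  have hWγ := mul_le_mul_of_nonneg_right h5 hW0
  have hQγ := mul_le_mul_of_nonneg_right h5 hQ0
  obtain ⟨B, hB1, hB2, hB3⟩ := h F σ wa wb vp D R a al z d tt qa qb hd hRc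
    ⟨hS.wab, hS.qab, hS.Xt, hS.rate, hS.tγ.trans hWγ, hS.Xγ.trans hQγ, hS.Dγ.trans hQγ,
      hS.Rγ.trans hQγ, hS.rise⟩ hwR hRJ hz hrate
  refine ⟨B, hB1, hB2, fun w q g1 g2 g3 g4 g5 => ?_⟩
  obtain ⟨k1, k2, k3⟩ := hB3 w q g1 g2 g3 g4 g5
  refine ⟨k1, k2, fun hT hA hJ => k3 ⟨fun E hE => ?_, fun E hE => ?_⟩ (fun j hj => ?_) hJ⟩
  · refine (hT.tim E (h1.trans hE)).trans ?_
    exact mul_le_mul_of_nonneg_right h4 (Nat.cast_nonneg _)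
  · exact (hT.th E (h1.trans hE)).trans h3
  · intro r X' hX hr E hE
    refine hA j hj r X' ?_ hr E (h1.trans hE)
    exact (mul_le_mul_of_nonneg_right h2 (Nat.cast_nonneg _)).trans hX

/-- The full step on flat rectangles. -/
def FltP (ε ca ρ x₀ ϖ κ ε₁ εN γ : ℝ) (k' C X₀ : ℕ) : Prop :=
  ∀ {J : ℕ} (F : Fam 2 J) (σ : Fin 2 → Fin 2) (wa wb : ℕ) (l : ℕ → ℕ) (R : ℕ)
      (a : ℕ → F.Ω → ℝ) (al : F.Ω → ℝ) (z : ℕ → F.Ω → Fin 2 → ℝ) (P : Type) (Pt : F.Ω → P)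
      (nB X qa qb : ℕ), X₀ ≤ X → Function.Injective σ → Lev F F.p al l 0 J a →
      wa ≤ wb → wb ≤ R → R ≤ J → (∀ w, wa ≤ w → w ≤ wb → Zof σ (a w) (z w)) →
      (C : ℝ) * X ≤ γ * (wb - wa : ℕ) → ((R - wa : ℕ) : ℝ) ≤ γ * (qb - qa : ℕ) →
      (∀ w w' : ℕ, wa ≤ w → w ≤ w' → w' ≤ wb → (w' : ℝ) ≤ w + C * X →
        (l w' : ℝ) ≤ l w + x₀ * X) →
      Pool.FLT.PtD (F.cot R) F.p σ al Pt R nB J 1 →
      ∃ B : Finset (ℕ × ℕ), B ⊆ Ico wa wb ×ˢ Ico qa qb ∧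
        (B.card : ℝ) ≤ ρ * ((wb - wa : ℕ) * (qb - qa : ℕ)) ∧
        ∀ w q, wa ≤ w → w < wb → qa ≤ q → q < qb → (w, q) ∉ B → w + X ≤ wb ∧
          (∑ i ∈ range X, nr F.p (slam (F.cot R) w) ((F.cot R).wt w) k' i ≤ εN * X →
            Pe (dbl F.p (slam F w))
              (fun u => |al u.1 - al u.2| ≤ 2 ^ (-((l w : ℝ) + x₀ * X))) ≤ ε₁ →
            (∀ E : F.Ω → Prop, ϖ ≤ Pe F.p E → ca * ⌊κ * X⌋₊ * Real.log 2 ≤
              CH (Pool.Agent.H49.Ent.cond F.p E True)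
                (fun ω => ⌊(2 : ℝ) ^ (q + ⌊κ * X⌋₊) * F.d ω (σ 0)⌋)
                (fun ω => (Pt ω, ⌊(2 : ℝ) ^ q * F.d ω (σ 0)⌋))) →
            q + l w + X ≤ nB → q + l (w + X) + (w + X) ≤ J →
            cVol J (w + X) q (l (w + X)) - cVol J w q (l w) - ε * X ≤
              cNf F (w + X) q (l (w + X)) (σ 0) (z (w + X)) - cNf F w q (l w) (σ 0) (z w))

theorem FltP.mono {ε ca ρ x₀ ϖ κ ε₁ εN γ ϖ' ε' εN' γ' : ℝ} {k' C X₀ : ℕ}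
    (h : FltP ε ca ρ x₀ ϖ κ ε₁ εN γ k' C X₀) (h1 : ϖ' ≤ ϖ) (h3 : ε' ≤ ε₁)
    (h4 : εN' ≤ εN) (h5 : γ' ≤ γ) : FltP ε ca ρ x₀ ϖ' κ ε' εN' γ' k' C X₀ := by
  intro J F σ wa wb l R a al z P Pt nB X qa qb hX hσ hL hw hwR hRJ hz hC hR hfl hP
  obtain ⟨B, hB1, hB2, hB3⟩ := h F σ wa wb l R a al z P Pt nB X qa qb hX hσ hL hw hwR hRJ hz
    (hC.trans (mul_le_mul_of_nonneg_right h5 (Nat.cast_nonneg _)))
    (hR.trans (mul_le_mul_of_nonneg_right h5 (Nat.cast_nonneg _))) hfl hP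
  refine ⟨B, hB1, hB2, fun w q g1 g2 g3 g4 g5 => ?_⟩
  obtain ⟨k1, k2⟩ := hB3 w q g1 g2 g3 g4 g5
  refine ⟨k1, fun ht hth ha => k2 (ht.trans ?_) (hth.trans h3) fun E hE => ha E (h1.trans hE)⟩
  exact mul_le_mul_of_nonneg_right h4 (Nat.cast_nonneg _)

/-! ### The chart -/

/-- The chart of the box. -/
def sg (i0 : Fin 2) (i : Fin 2) : Fin 2 := if i = 0 then i0 else oth i0

theorem sg0 (i0 : Fin 2) : sg i0 0 = i0 := if_pos rfl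

theorem sg1 (i0 : Fin 2) : sg i0 1 = oth i0 := if_neg (by decide)

theorem sg_inj (i0 : Fin 2) : Function.Injective (sg i0) := by
  intro i j h
  fin_cases i0 <;> fin_cases i <;> fin_cases j <;> first | rfl | (exfalso; revert h; decide)

theorem zof_zv {F : Fam 2 J} (i0 : Fin 2) (b : F.Ω → ℝ) : Zof (sg i0) b (zv i0 b) := by
  intro ω
  rw [sg0, sg1]
  exact ⟨zv_i0 i0 b ω, zv_ne (Pool.PC.oth_ne i0) b ω⟩

/-! ### The mesh -/

theorem msh_mono {n i j : ℕ} (h : i ≤ j) : msh J n i ≤ msh J n j := by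
  unfold msh
  refine Nat.floor_le_floor (mul_le_mul_of_nonneg_right
    (div_le_div_of_nonneg_right ?_ (Nat.cast_nonneg n)) (Nat.cast_nonneg J))
  exact_mod_cast h

theorem msh_n {n : ℕ} (hn : 1 ≤ n) : msh J n n = J := by
  rw [← mwi_msh, mwi_n hn]

theorem msh_J {n i : ℕ} (hn : 1 ≤ n) (hi : i ≤ n) : msh J n i ≤ J :=
  (msh_mono hi).trans (msh_n hn).le

theorem vpc_cap83 {c : Nm} {cap h : ℝ} {n : ℕ} (hcap : 0 ≤ cap) (hh : 0 ≤ h) (w : ℕ) :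
    (vpc c cap h n J w : ℝ) ≤ cap * J := by
  rw [vpc_eq]
  rcases le_total 0 ((min (c.rot ((mix 0 (1 / (n : ℝ)) J w : ℕ) / n)) cap - 2 * h) * J) with h2 | h2
  · refine (Nat.floor_le h2).trans (mul_le_mul_of_nonneg_right ?_ (Nat.cast_nonneg J))
    have := min_le_right (c.rot ((mix 0 (1 / (n : ℝ)) J w : ℕ) / n)) cap
    linarith
  · rw [Nat.floor_of_nonpos h2]
    have := mul_nonneg hcap (Nat.cast_nonneg (α := ℝ) J)
    exact_mod_cast this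

/-! ### The hypotheses which do not depend on the cell -/

/-- **The environment.** -/
structure Env (F : Fam 2 J) (c : Nm) (B : ℕ → Bx F) (k n t : ℕ) (h x δ : ℝ) (a : ℕ → F.Ω → ℝ)
    (T : Finset ℕ) (X qa qb k' : ℕ) (ca ϖ κa ε₁ εN : ℝ) : Prop where
  ok : (B k).Ok (fun _ => True)
  cok : c.Ok δ
  lvl : Lvl F c n h B k
  lev : Lev F F.p (B k).a (vpc c (cpx c x) h n J) 0 J a
  n1 : 1 ≤ n
  nJ : n ≤ J
  h0 : 0 < h
  h1 : h < 1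
  hc : h ≤ ε₁ * ϖ
  ϖ0 : 0 < ϖ
  ϖ1 : ϖ ≤ 1
  e0 : 0 < ε₁
  x0 : 0 < x
  xn : x < c.n - c.q
  tcap : ∀ i < t, c.rot (i / n) < cpx c x
  qab : qa ≤ qb
  qn : ∀ w, qb + X + vpc c (cpx c x) h n J w ≤ (B k).n
  tim : ∀ w, w ∉ T → Tgo F X k' ϖ εN w
  act : ∀ q' X' : ℕ, κa * X ≤ X' → X' ≤ X → qa ≤ q' → q' + X' ≤ qb + X → ∀ E : F.Ω → Prop,
    ϖ ≤ Pe F.p E → ca * X' * Real.log 2 + Pool.WF.c₄ ≤ CH (Pool.Agent.H49.Ent.cond F.p E True)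
      (Pool.WF.vc F (B k).i0 (q' + X')) (fun ω => (ptk B k ω, Pool.WF.vc F (B k).i0 q' ω))

/-- The steps of the windows of one cell are full, outside few pairs. -/
def CelP (F : Fam 2 J) (c : Nm) (B : ℕ → Bx F) (k n t : ℕ) (h x : ℝ) (a : ℕ → F.Ω → ℝ)
    (T : Finset ℕ) (X V qa qb k' lo hi : ℕ) (ρ ε : ℝ) : Prop :=
  ∃ S : Finset (ℕ × ℕ), (S.card : ℝ) ≤ ρ * ((hi - lo : ℕ) * (qb - qa : ℕ)) ∧
    ∀ w q, lo ≤ w → w < hi → qa ≤ q → q < qb → (w, q) ∉ S → w ∉ T →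
      mup 0 (1 / (n : ℝ)) J w < t → w + X + k' ≤ J →
      q + vpc c (cpx c x) h n J w + w + (V + 1) * X ≤ J →
      InS F (B k).i0 (vpc c (cpx c x) h n J) (fun w => zv (B k).i0 (a w)) X ε w q

section env

variable {F : Fam 2 J} {c : Nm} {B : ℕ → Bx F} {k n t : ℕ} {h x δ : ℝ} {a : ℕ → F.Ω → ℝ}
  {T : Finset ℕ} {X qa qb k' : ℕ} {ca ϖ κa ε₁ εN : ℝ}

/-- The activity at one context. -/
theorem Env.ha2 (E : Env F c B k n t h x δ a T X qa qb k' ca ϖ κa ε₁ εN) {w q : ℕ} (hw : w ≤ J)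
    (hq : qa ≤ q) (hqb : q ≤ qb) (hJ : q + X + vpc c (cpx c x) h n J w + w ≤ J) :
    Ha2 F F.p (sg (B k).i0) (vpc c (cpx c x) h n J) a X ϖ κa ca w q := by
  intro r X' hX' hrX Ev hE
  have hp : IsLaw (Pool.Agent.H49.Ent.cond F.p Ev True) := Pool.S6U.ev_law F.isLaw E.ϖ0 hE
  have key := E.act (q + r) X' hX' (by omega) (by omega) (by omega) Ev hE
  have own := (Pool.WF.own_ptk E.ok).ev F.isLaw.nonneg Ev
  rw [← sg0 (B k).i0] at own key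
  have hn := E.qn w
  have k2 := own.act_blb (a := a w) (w := w) (q := q + r) (v := vpc c (cpx c x) h n J w) (X := X')
    (D := 4) hp (sg_inj _) le_rfl (by norm_num) (by omega) (by omega) (E.lev.grid w) (by
      intro ω hω
      unfold Pool.WF.zB
      rw [sg1, if_neg (Pool.PC.oth_ne _)]
      refine (E.lev.near w (Nat.zero_le _) hw ω ((ev_pos F.isLaw.nonneg).1 hω).1).trans ?_
      exact div_le_div_of_nonneg_right (by norm_num) (by positivity))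
  have h3 := CH_of_det hp.nonneg (N := Pool.WF.vc F (sg (B k).i0 0) (q + r + X'))
    (N' := Pool.WF.vc F (sg (B k).i0 0) (q + r)) (Z := ptk B k)
    (fun ω ω' _ _ e => Pool.WF.vc_down (by omega) (Prod.ext_iff.mp e).1)
  have h4 : CH (Pool.Agent.H49.Ent.cond F.p Ev True)
      (Pool.WF.vc F (sg (B k).i0 0) (q + r + X'))
      (fun ω => (Pool.WF.vc F (sg (B k).i0 0) (q + r) ω, ptk B k ω)) =
      CH (Pool.Agent.H49.Ent.cond F.p Ev True) (Pool.WF.vc F (sg (B k).i0 0) (q + r + X'))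
      (fun ω => (ptk B k ω, Pool.WF.vc F (sg (B k).i0 0) (q + r) ω)) := by
    refine CH_congr hp.nonneg (fun _ _ _ _ h => (Prod.ext_iff.mp h).1)
      (fun _ _ _ _ h => (Prod.ext_iff.mp h).1) ?_ ?_ <;>
    · intro ω ω' _ _ h
      have := Prod.ext_iff.mp h
      exact Prod.ext this.2 this.1
  have e : Pool.WF.cvis 2 1 4 = Pool.WF.c₄ := rfl
  rw [e] at k2
  rw [h4] at h3
  linarith

end env

/-! ### A rising cell -/

section cells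

variable {F : Fam 2 J} {c : Nm} {B : ℕ → Bx F} {k n t : ℕ} {h x δ : ℝ} {a : ℕ → F.Ω → ℝ}
  {T : Finset ℕ} {X qa qb k' : ℕ} {ca ϖ κa ε₁ εN : ℝ}

/-- **A rising cell.** -/
theorem rise_ok {ε ρ x₀ x₁ γ C Cq d : ℝ} {V nn d₀ dd N tt i : ℕ}
    (hR : RisP ε ca ρ x₁ ϖ κa ε₁ εN γ V k' nn d₀) (hx₁ : 0 < x₁)
    (E : Env F c B k n t h x δ a T (nn * dd) qa qb k' ca ϖ κa ε₁ εN) (hd₀ : d₀ ≤ dd)
    (hi : (i + 1) * N ≤ n)
    (hok : CellOk (fun y => min (c.rot y) (cpx c x)) 0 d (1 / (n : ℝ)) (2 * h) (h + 2 / J)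
      x₀ x₁ γ C 1 Cq N J (nn * dd) tt i)
    (hrate : ∀ w, msh J n (i * N) ≤ w → w + nn * dd ≤ msh J n ((i + 1) * N) →
      vpc c (cpx c x) h n J (w + nn * dd) ≤ vpc c (cpx c x) h n J w + V * (nn * dd))
    (hkX : k' ≤ nn * dd) (hQ : Cq * d * J ≤ γ * (qb - qa : ℕ))
    (hS : ∀ D R qa qb : ℕ, (D : ℝ) ≤ mdi (fun y => min (c.rot y) (cpx c x)) 0 (1 / (n : ℝ))
        (2 * h) J ((i + 1) * N) + x₁ * (nn * dd : ℕ) + 3 →
      (R : ℝ) ≤ mwi 0 (1 / (n : ℝ)) J ((i + 1) * N) + 1 * (nn * dd : ℕ) → qa ≤ qb →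
      Cq * d * J ≤ γ * (qb - qa : ℕ) →
      Sh2 (mwi 0 (1 / (n : ℝ)) J (i * N)) (mwi 0 (1 / (n : ℝ)) J ((i + 1) * N))
        (mvp (fun y => min (c.rot y) (cpx c x)) 0 (1 / (n : ℝ)) (2 * h) J) D R tt (nn * dd)
        qa qb γ) :
    CelP F c B k n t h x a T (nn * dd) V qa qb k' (msh J n (i * N)) (msh J n ((i + 1) * N))
      ρ ε := by
  obtain ⟨lo, hlo⟩ : ∃ lo, lo = msh J n (i * N) := ⟨_, rfl⟩
  obtain ⟨hh, hhi⟩ : ∃ hh, hh = msh J n ((i + 1) * N) := ⟨_, rfl⟩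
  obtain ⟨X, hX⟩ : ∃ X, X = nn * dd := ⟨_, rfl⟩
  obtain ⟨R, hRR⟩ : ∃ R, R = min J (hh + k') := ⟨_, rfl⟩
  obtain ⟨vp, hvp⟩ : ∃ vp, vp = vpc c (cpx c x) h n J := ⟨_, rfl⟩
  obtain ⟨D, hD⟩ : ∃ D, D = vp hh + ⌈x₁ * (X : ℝ)⌉₊ + 1 := ⟨_, rfl⟩
  have hhJ : hh ≤ J := by rw [hhi]; exact msh_J E.n1 hi
  have hvh : vp hh = mdi (fun y => min (c.rot y) (cpx c x)) 0 (1 / (n : ℝ)) (2 * h) J
      ((i + 1) * N) := by
    rw [hvp, hhi]
    unfold vpc mvp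
    rw [← mwi_msh, mix_mwi le_rfl (mshe E.n1) (mshJ E.n1 E.nJ)]
  have hXr : (0 : ℝ) ≤ X := Nat.cast_nonneg X
  have c1 : x₁ * (X : ℝ) ≤ ⌈x₁ * (X : ℝ)⌉₊ := Nat.le_ceil _
  have c2 : (⌈x₁ * (X : ℝ)⌉₊ : ℝ) < x₁ * X + 1 := Nat.ceil_lt_add_one (mul_nonneg hx₁.le hXr)
  have hRc : Rc2 F F.p (sg (B k).i0) lo hh vp D a (B k).a := by
    rw [hvp]
    refine E.lev.rc2 F.isLaw (sg_inj _) (Nat.zero_le _) hhJ hhJ ?_
    rw [← hvp, hD]
    omega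
  have hSh : Sh2 lo hh vp D R tt X qa qb γ := by
    have h1 := hS D R qa qb (by
      rw [← hvh, hD, ← hX]
      push_cast
      linarith) (by
      rw [mwi_msh, ← hhi, ← hX]
      have h2 : R ≤ hh + k' := by rw [hRR]; exact min_le_right _ _
      have h3 : R ≤ hh + X := h2.trans (by omega)
      have h4 : (R : ℝ) ≤ hh + X := by exact_mod_cast h3
      linarith) E.qab hQ
    rw [mwi_msh, mwi_msh, ← hlo, ← hhi, ← hX] at h1
    rw [hvp]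
    exact h1
  have hhR : hh ≤ R := by rw [hRR]; exact le_min hhJ (Nat.le_add_right _ _)
  have hRJ : R ≤ J := by rw [hRR]; exact min_le_left _ _
  obtain ⟨S, -, hS2, hS3⟩ := hR F (sg (B k).i0) lo hh vp D R a (B k).a
    (fun w => zv (B k).i0 (a w)) dd tt qa qb hd₀ hRc (by rw [← hX]; exact hSh) hhR hRJ
    (fun w _ _ => zof_zv _ _) (by
      rw [hlo, hhi, hvp]
      exact hrate)
  rw [← hlo, ← hhi]
  refine ⟨S, hS2, ?_⟩
  intro w q g1 g2 g3 g4 g5 g6 g7 g8 g9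
  obtain ⟨k1, k2, k3⟩ := hS3 w q g1 g2 g3 g4 g5
  rw [← hX] at k1 k2 k3 g8 g9 ⊢
  rw [← hvp] at g9 ⊢
  have hwJ : w ≤ J := by omega
  have hwR : w + X + k' ≤ R := by
    rw [hRR]
    refine le_min g8 ?_
    omega
  have hmt := E.tcap _ g7
  intro hJ
  rw [sg0] at k3
  refine k3 ⟨?_, ?_⟩ ?_ hJ
  · intro Ev hE
    have := E.tim w g6 R (by rw [← hX]; exact hwR) hRJ Ev hE
    rw [← hX] at this
    exact this
  · intro Ev hE
    have h1 := lvl_cellw (c := c) (cap := cpx c x) (D := D) (w := w) E.lvl E.n1 E.nJ E.h0 E.h1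
      E.cok.r0 E.lev E.ϖ0 E.e0 E.hc hi hok (by rw [← hlo]; exact g1)
      (by rw [← hhi]; exact g2.le) hmt.le (lt_trans hmt (by
        unfold cpx
        linarith [E.x0])) (by
        rw [← hvp, ← hX, hD]
        have h2 : vp w ≤ vp hh := by
          rw [hvp]
          exact vpc_mono E.cok.rm E.n1 g2.le
        have h3 : (vp w : ℝ) ≤ vp hh := by exact_mod_cast h2
        push_cast
        linarith) Ev hE
    rw [← hvp, ← hX] at h1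
    exact h1
  · intro j hj
    have hjX : j * X ≤ V * X := Nat.mul_le_mul_right X hj
    have e1 : (V + 1) * X = V * X + X := by ring
    rw [e1] at g9
    have h1 := E.ha2 (w := w) (q := q + j * X) hwJ (by omega) (by omega) (by
      rw [← hvp, ← hX]
      omega)
    rw [← hvp, ← hX] at h1
    exact h1

/-- **A flat cell.** -/
theorem flat_ok {ε ρ x₀ x₁ γ κf Cq d : ℝ} {V C X₀ N tt i : ℕ}
    (hR : FltP ε ca ρ x₀ ϖ κf ε₁ εN γ k' C X₀) (hκf1 : κf ≤ 1)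
    (hP : ∀ R ≤ J, Pool.FLT.PtD (F.cot R) F.p (sg (B k).i0) (B k).a (ptk (F := F) B k) R (B k).n J 1)
    (E : Env F c B k n t h x δ a T X qa qb k' ca ϖ κa ε₁ εN) (hX₀ : X₀ ≤ X)
    (hκa : κa * X ≤ ⌊κf * X⌋₊)
    (hi : (i + 1) * N ≤ n)
    (hok : CellOk (fun y => min (c.rot y) (cpx c x)) 0 d (1 / (n : ℝ)) (2 * h) (h + 2 / J)
      x₀ x₁ γ C 1 Cq N J X tt i)
    (hC : (C : ℝ) * X ≤ γ * (msh J n ((i + 1) * N) - msh J n (i * N) : ℕ))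
    (hQ : ((msh J n ((i + 1) * N) - msh J n (i * N) + k' : ℕ) : ℝ) ≤ γ * (qb - qa : ℕ))
    (hS : ∀ w w' : ℕ, mwi 0 (1 / (n : ℝ)) J (i * N) ≤ w → w ≤ w' →
      w' ≤ mwi 0 (1 / (n : ℝ)) J ((i + 1) * N) → (w' : ℝ) ≤ w + C * X →
      (mvp (fun y => min (c.rot y) (cpx c x)) 0 (1 / (n : ℝ)) (2 * h) J w' : ℝ) ≤
        mvp (fun y => min (c.rot y) (cpx c x)) 0 (1 / (n : ℝ)) (2 * h) J w + x₀ * X)
    (hc₄ : 0 ≤ Pool.WF.c₄) :
    CelP F c B k n t h x a T X V qa qb k' (msh J n (i * N)) (msh J n ((i + 1) * N)) ρ ε := by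
  obtain ⟨lo, hlo⟩ : ∃ lo, lo = msh J n (i * N) := ⟨_, rfl⟩
  obtain ⟨hh, hhi⟩ : ∃ hh, hh = msh J n ((i + 1) * N) := ⟨_, rfl⟩
  obtain ⟨R, hRR⟩ : ∃ R, R = min J (hh + k') := ⟨_, rfl⟩
  obtain ⟨vp, hvp⟩ : ∃ vp, vp = vpc c (cpx c x) h n J := ⟨_, rfl⟩
  have hhJ : hh ≤ J := by rw [hhi]; exact msh_J E.n1 hi
  have hlh : lo ≤ hh := by
    rw [hlo, hhi]
    exact msh_mono (Nat.mul_le_mul_right _ (Nat.le_succ i))
  have hXr : (0 : ℝ) ≤ X := Nat.cast_nonneg X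
  have hhR : hh ≤ R := by rw [hRR]; exact le_min hhJ (Nat.le_add_right _ _)
  have hRJ : R ≤ J := by rw [hRR]; exact min_le_left _ _
  have hRh : R ≤ hh + k' := by rw [hRR]; exact min_le_right _ _
  obtain ⟨S, -, hS2, hS3⟩ := hR F (sg (B k).i0) lo hh vp R a (B k).a
    (fun w => zv (B k).i0 (a w)) _ (ptk B k) (B k).n X qa qb hX₀ (sg_inj _)
    (by rw [hvp]; exact E.lev) hlh hhR hRJ (fun w _ _ => zof_zv _ _)
    (by rw [hlo, hhi]; exact hC) (by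
      refine le_trans ?_ hQ
      rw [← hlo, ← hhi]
      have : R - lo ≤ hh - lo + k' := by omega
      exact_mod_cast this) (by
      intro w w' g1 g2 g3 g4
      have h1 := hS w w' (by rw [mwi_msh, ← hlo]; exact g1) g2
        (by rw [mwi_msh, ← hhi]; exact g3) g4
      rw [hvp]
      exact h1) (hP R hRJ)
  rw [← hlo, ← hhi]
  refine ⟨S, hS2, ?_⟩
  intro w q g1 g2 g3 g4 g5 g6 g7 g8 g9
  obtain ⟨k1, k3⟩ := hS3 w q g1 g2 g3 g4 g5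
  rw [← hvp] at g9 ⊢
  have hwJ : w ≤ J := by omega
  have hwR : w + X + k' ≤ R := by
    rw [hRR]
    refine le_min g8 ?_
    omega
  have hmt := E.tcap _ g7
  have hmr : c.rot ((mup 0 (1 / (n : ℝ)) J w : ℕ) / n) < c.n - c.q := lt_trans hmt (by
    unfold cpx
    linarith [E.x0])
  have htrue : ϖ ≤ Pe F.p (fun _ => True) := by
    rw [Pe_true F.isLaw]
    exact E.ϖ1
  intro hJ
  rw [sg0] at k3
  refine k3 ?_ ?_ ?_ ?_ hJ
  · have h1 := E.tim w g6 R hwR hRJ (fun _ => True) htrue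
    rwa [cond_true F.isLaw] at h1
  · obtain ⟨m1, m2⟩ := ok_incr E.n1 E.nJ hok (w := w) (by rw [← hlo]; exact g1)
      (by rw [← hhi]; exact g2.le) hmt.le
    have h1 := lvl_th E.lvl E.n1 E.h0 E.h1 E.cok.r0 E.ϖ0 E.e0 E.hc (m1.trans hi) hmr (w := w)
      (by
        rw [← mwi_msh]
        exact le_mwi_mup le_rfl (mshe E.n1) (mshJ E.n1 E.nJ) w) (y := (vp w : ℝ) + x₀ * X) (by
        refine m2.trans ?_
        rw [← hvp]
        have h2 : min x₀ x₁ * (X : ℝ) ≤ x₀ * X := mul_le_mul_of_nonneg_right (min_le_left _ _) hXr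
        linarith) (fun _ => True) htrue
    rwa [cond_true F.isLaw] at h1
  · intro Ev hE
    have hfX : ⌊κf * X⌋₊ ≤ X := by
      refine Nat.floor_le_of_le ?_
      exact mul_le_of_le_one_left hXr hκf1
    have h1 := E.act q ⌊κf * X⌋₊ hκa hfX g3 (by omega) Ev hE
    refine le_trans ?_ h1
    linarith
  · have := E.qn w
    rw [← hvp] at this
    omega

end cells

end Pool.PC
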